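import Mathlib

/-!
A reflective checker for refutation trees: no `P₅`-free graph with a proper 3-colouring admits a
frozen 4-colouring.
-/

set_option autoImplicit false

namespace Pool.Agent.H125R3.FrozenP5

/-- A certificate: `c v j` closes a branch because vertex `v` has no possible neighbour of colour
`j`; `a c ps s r` adds a vertex with profile `c`, filters with the patterns `ps`, refutes by `s`,
then goes on with `r` where no vertex has profile `c`. -/
inductive Cert where
  | c (v j : Nat) : Cert
  | a (c : Nat) (ps : List Nat) (s r : Cert) : Cert

/-- adjacency of the vertices `p ≠ q` in the state `S`. -/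
def adj (S : Nat → Nat) (p q : Nat) : Bool :=
  if p < q then Nat.testBit (S q) p else Nat.testBit (S p) q

/-- The mask of a list of (four) indices. -/
def bit (p : Nat) : Nat := 1 <<< p

/-- A pattern `(p,q,r,s,mode)` yields the masks `(X,Y)`: a vertex whose profile `d` has
`d &&& X = Y` would create an induced `P₅`. -/
def patX (n : Nat) : Nat :=
  bit (n % 16) ||| (bit (n / 16 % 16) ||| (bit (n / 256 % 16) ||| bit (n / 4096 % 16)))

def patY (n : Nat) : Nat :=
  let m := n / 65536
  if m = 0 then bit (n % 16)
  else if m = 1 then bit (n % 16) ||| bit (n / 16 % 16)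
  else bit (n / 16 % 16) ||| bit (n / 256 % 16)

/-- validity of a pattern in the state `S` with `k` vertices. -/
def patOK (S : Nat → Nat) (k n : Nat) : Bool :=
  let p := n % 16
  let q := n / 16 % 16
  let r := n / 256 % 16
  let s := n / 4096 % 16
  let m := n / 65536
  (decide (p < k) && decide (q < k) && decide (r < k) && decide (s < k)) &&
  (!(Nat.beq p q) && !(Nat.beq p r) && !(Nat.beq p s) && !(Nat.beq q r) && !(Nat.beq q s)
    && !(Nat.beq r s)) &&
  (!(adj S p r) && !(adj S p s) && !(adj S q s) && adj S r s) &&
  (if m = 0 then adj S p q && adj S q r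
   else if m = 1 then !(adj S p q) && adj S q r
   else adj S p q && !(adj S q r))

/-- filter by masks -/
def good (M : List (Nat × Nat)) (d : Nat) : Bool :=
  M.all fun m => !(Nat.beq (Nat.land d m.1) m.2)

/-- The updated list of profiles, after the addition of vertex number `k` of profile `c`. -/
def upd (k cm : Nat) (M : List (Nat × Nat)) : List Nat → List Nat
  | [] => []
  | d :: L =>
    let L' := upd k cm M L
    let L'' := if Nat.beq (Nat.land d cm) 0 && good M (Nat.lor d (bit k)) then
      Nat.lor d (bit k) :: L' else L'
    if good M d then d :: L'' else L''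

/-- extend the state -/
def ext (S : Nat → Nat) (k c : Nat) : Nat → Nat := fun p => if p = k then c else S p

/-- The checker. -/
def check : Cert → (Nat → Nat) → Nat → List Nat → Bool
  | .c v j, S, k, L =>
    decide (v < k) && decide (j < 4) && !(Nat.testBit (S v) (19 + j)) &&
      L.all fun d => !(Nat.testBit d v && Nat.testBit d (19 + j))
  | .a c ps s r, S, k, L =>
    decide (k < 16) && decide (c < 2 ^ 23) && (ps.all fun n => patOK (ext S k c) (k + 1) n) &&
      check s (ext S k c) (k + 1)
        (upd k ((c / 65536) * 65536) (ps.map fun n => (patX n, patY n)) L) &&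
      check r S k (L.filter fun d => !(Nat.beq d c))

end Pool.Agent.H125R3.FrozenP5
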