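import Pool.Agent.H125R3.FrozenP5

set_option autoImplicit false
set_option linter.unusedSimpArgs false

namespace Pool.Agent.H125R3.FrozenP5

open SimpleGraph

theorem testBit_bit (p n : ℕ) : Nat.testBit (bit p) n = decide (p = n) := by
  unfold bit
  rw [Nat.one_shiftLeft, Nat.testBit_two_pow]

theorem patX_testBit (m n : ℕ) : Nat.testBit (patX m) n =
    (decide (m % 16 = n) || (decide (m / 16 % 16 = n) || (decide (m / 256 % 16 = n) ||
      decide (m / 4096 % 16 = n)))) := by
  simp [patX, Nat.testBit_or, testBit_bit]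

variable {V : Type} (G : SimpleGraph V) (c3 c4 : V → ℕ)

/-- `x` has profile `c` over the first `k` vertices of `φ`. -/
def Real (φ : ℕ → V) (k : ℕ) (x : V) (c : ℕ) : Prop :=
  ∀ n, n < 23 → (Nat.testBit c n = true ↔
    ((n < k ∧ G.Adj x (φ n)) ∨ n = 16 + c3 x ∨ n = 19 + c4 x))

def Inv (φ : ℕ → V) (k : ℕ) (S : ℕ → ℕ) : Prop :=
  ∀ p, p < k → Real G c3 c4 φ p (φ p) (S p)

theorem adj_iff {φ : ℕ → V} {k : ℕ} {S : ℕ → ℕ} (hk : k ≤ 16) (hI : Inv G c3 c4 φ k S)
    {p q : ℕ} (hp : p < k) (hq : q < k) (hpq : p ≠ q) :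
    adj S p q = true ↔ G.Adj (φ p) (φ q) := by
  unfold adj
  split_ifs with h
  · rw [hI q hq p (by omega)]
    constructor
    · rintro (⟨_, h1⟩ | h1 | h1)
      · exact h1.symm
      · omega
      · omega
    · intro h1
      exact Or.inl ⟨h, h1.symm⟩
  · rw [hI p hp q (by omega)]
    constructor
    · rintro (⟨_, h1⟩ | h1 | h1)
      · exact h1
      · omega
      · omega
    · intro h1
      exact Or.inl ⟨by omega, h1⟩

/-- five vertices inducing a path -/
def P5 (v : Fin 5 → V) : Prop :=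
  G.Adj (v 0) (v 1) ∧ G.Adj (v 1) (v 2) ∧ G.Adj (v 2) (v 3) ∧ G.Adj (v 3) (v 4) ∧
  ¬ G.Adj (v 0) (v 2) ∧ ¬ G.Adj (v 0) (v 3) ∧ ¬ G.Adj (v 0) (v 4) ∧
  ¬ G.Adj (v 1) (v 3) ∧ ¬ G.Adj (v 1) (v 4) ∧ ¬ G.Adj (v 2) (v 4)

theorem embed_of_P5 (v : Fin 5 → V) (h : P5 G v) : Nonempty (pathGraph 5 ↪g G) := by
  obtain ⟨h01, h12, h23, h34, h02, h03, h04, h13, h14, h24⟩ := h
  have s02 : ¬ G.Adj (v 2) (v 0) := fun h => h02 h.symm
  have s03 : ¬ G.Adj (v 3) (v 0) := fun h => h03 h.symm
  have s04 : ¬ G.Adj (v 4) (v 0) := fun h => h04 h.symm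
  have s13 : ¬ G.Adj (v 3) (v 1) := fun h => h13 h.symm
  have s14 : ¬ G.Adj (v 4) (v 1) := fun h => h14 h.symm
  have s24 : ¬ G.Adj (v 4) (v 2) := fun h => h24 h.symm
  have key : ∀ i j : Fin 5, G.Adj (v i) (v j) ↔ (pathGraph 5).Adj i j := by
    intro i j
    rw [pathGraph_adj]
    fin_cases i <;> fin_cases j <;>
      simp [h01, h12, h23, h34, h02, h03, h04, h13, h14, h24, h01.symm, h12.symm, h23.symm,
        h34.symm, s02, s03, s04, s13, s14, s24]
  have inj : Function.Injective v := by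
    intro i j hij
    have h1 : ∀ l : Fin 5, (pathGraph 5).Adj i l ↔ (pathGraph 5).Adj j l := by
      intro l
      rw [← key, ← key, hij]
    simp only [pathGraph_adj] at h1
    clear hij
    revert i j
    decide
  exact ⟨⟨⟨v, inj⟩, by intro a b; exact key a b⟩⟩

theorem real_adj {φ : ℕ → V} {k : ℕ} (hk : k ≤ 16) {x : V} {d : ℕ} (hd : Real G c3 c4 φ k x d)
    {p : ℕ} (hp : p < k) : Nat.testBit d p = true ↔ G.Adj x (φ p) := by
  rw [hd p (by omega)]
  constructor
  · rintro (⟨_, h1⟩ | h1 | h1)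
    · exact h1
    · omega
    · omega
  · intro h1
    exact Or.inl ⟨hp, h1⟩

theorem pat_sound {φ : ℕ → V} {k : ℕ} {S : ℕ → ℕ} (hk : k ≤ 16) (hI : Inv G c3 c4 φ k S)
    (hP : ∀ v : Fin 5 → V, ¬ P5 G v) {n : ℕ} (hn : patOK S k n = true) {x : V} {d : ℕ}
    (hd : Real G c3 c4 φ k x d) : Nat.land d (patX n) ≠ patY n := by
  intro heq
  have hb : ∀ t, (Nat.testBit d t && Nat.testBit (patX n) t) = Nat.testBit (patY n) t := by
    intro t
    rw [← heq]
    exact (Nat.testBit_and d (patX n) t).symm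
  simp only [patX_testBit] at hb
  unfold patOK at hn
  unfold patY at hb
  generalize n % 16 = p at hn hb
  generalize n / 16 % 16 = q at hn hb
  generalize n / 256 % 16 = r at hn hb
  generalize n / 4096 % 16 = s at hn hb
  generalize n / 65536 = m at hn hb
  simp only [Bool.and_eq_true, decide_eq_true_eq, Bool.not_eq_true', Nat.beq_eq_true_eq,
    Bool.not_eq_eq_eq_not, Bool.not_true] at hn
  obtain ⟨⟨⟨⟨⟨⟨hp, hq⟩, hr⟩, hs⟩, ⟨⟨⟨⟨⟨n1, n2⟩, n3⟩, n4⟩, n5⟩, n6⟩⟩, ⟨⟨⟨a1, a2⟩, a3⟩, a4⟩⟩, hm⟩ := hn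
  have e1 : p ≠ q := by intro h; subst h; simp at n1
  have e2 : p ≠ r := by intro h; subst h; simp at n2
  have e3 : p ≠ s := by intro h; subst h; simp at n3
  have e4 : q ≠ r := by intro h; subst h; simp at n4
  have e5 : q ≠ s := by intro h; subst h; simp at n5
  have e6 : r ≠ s := by intro h; subst h; simp at n6
  have b1 : ¬ G.Adj (φ p) (φ r) := by
    rw [← adj_iff G c3 c4 hk hI hp hr e2]; simp [a1]
  have b2 : ¬ G.Adj (φ p) (φ s) := by
    rw [← adj_iff G c3 c4 hk hI hp hs e3]; simp [a2]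
  have b3 : ¬ G.Adj (φ q) (φ s) := by
    rw [← adj_iff G c3 c4 hk hI hq hs e5]; simp [a3]
  have b4 : G.Adj (φ r) (φ s) := by
    rw [← adj_iff G c3 c4 hk hI hr hs e6]; exact a4
  have hbp := hb p
  have hbq := hb q
  have hbr := hb r
  have hbs := hb s
  have rp := real_adj G c3 c4 hk hd hp
  have rq := real_adj G c3 c4 hk hd hq
  have rr := real_adj G c3 c4 hk hd hr
  have rs := real_adj G c3 c4 hk hd hs
  split_ifs at hm hbp with hm0 hm1
  · simp only [hm0, if_true, testBit_bit, Bool.and_eq_true] at hm hbp hbq hbr hbs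
    simp [testBit_bit, Nat.testBit_or, e1, e2, e3, e4, e5, e6, e1.symm, e2.symm, e3.symm,
      e4.symm, e5.symm, e6.symm] at hbp hbq hbr hbs
    rw [hbp] at rp; rw [hbq] at rq; rw [hbr] at rr; rw [hbs] at rs
    simp at rp rq rr rs
    have c1 : G.Adj (φ p) (φ q) := by
      rw [← adj_iff G c3 c4 hk hI hp hq e1]; exact hm.1
    have c2 : G.Adj (φ q) (φ r) := by
      rw [← adj_iff G c3 c4 hk hI hq hr e4]; exact hm.2
    exact hP ![x, φ p, φ q, φ r, φ s] ⟨rp, c1, c2, b4, rq, rr, rs, b1, b2, b3⟩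
  · simp only [hm0, hm1, if_false, if_true, testBit_bit, Bool.and_eq_true, Nat.testBit_or]
      at hm hbp hbq hbr hbs
    simp [testBit_bit, Nat.testBit_or, e1, e2, e3, e4, e5, e6, e1.symm, e2.symm, e3.symm,
      e4.symm, e5.symm, e6.symm] at hbp hbq hbr hbs
    rw [hbp] at rp; rw [hbq] at rq; rw [hbr] at rr; rw [hbs] at rs
    simp at rp rq rr rs hm
    have c1 : ¬ G.Adj (φ p) (φ q) := by
      rw [← adj_iff G c3 c4 hk hI hp hq e1]; simp [hm.1]
    have c2 : G.Adj (φ q) (φ r) := by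
      rw [← adj_iff G c3 c4 hk hI hq hr e4]; exact hm.2
    exact hP ![φ p, x, φ q, φ r, φ s] ⟨rp.symm, rq, c2, b4, c1, b1, b2, rr, rs, b3⟩
  · simp only [hm0, hm1, if_false, testBit_bit, Bool.and_eq_true, Nat.testBit_or]
      at hm hbp hbq hbr hbs
    simp [testBit_bit, Nat.testBit_or, e1, e2, e3, e4, e5, e6, e1.symm, e2.symm, e3.symm,
      e4.symm, e5.symm, e6.symm] at hbp hbq hbr hbs
    rw [hbp] at rp; rw [hbq] at rq; rw [hbr] at rr; rw [hbs] at rs
    simp at rp rq rr rs hm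
    have c1 : G.Adj (φ p) (φ q) := by
      rw [← adj_iff G c3 c4 hk hI hp hq e1]; exact hm.1
    have c2 : ¬ G.Adj (φ q) (φ r) := by
      rw [← adj_iff G c3 c4 hk hI hq hr e4]; simp [hm.2]
    exact hP ![φ p, φ q, x, φ r, φ s]
      ⟨c1, rq.symm, rr, b4, fun h => rp h.symm, b1, b2, c2, b3, rs⟩

theorem real_ext {φ ψ : ℕ → V} {k : ℕ} (h : ∀ p, p < k → φ p = ψ p) {x : V} {d : ℕ}
    (hd : Real G c3 c4 φ k x d) : Real G c3 c4 ψ k x d := by
  intro n hn
  rw [hd n hn]
  constructor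
  · rintro (⟨h1, h2⟩ | h1)
    · exact Or.inl ⟨h1, by rw [← h n h1]; exact h2⟩
    · exact Or.inr h1
  · rintro (⟨h1, h2⟩ | h1)
    · exact Or.inl ⟨h1, by rw [h n h1]; exact h2⟩
    · exact Or.inr h1

theorem inv_ext {φ : ℕ → V} {k : ℕ} {S : ℕ → ℕ} (hI : Inv G c3 c4 φ k S) {x : V} {c : ℕ}
    (hx : Real G c3 c4 φ k x c) :
    Inv G c3 c4 (Function.update φ k x) (k + 1) (ext S k c) := by
  have hφ : ∀ p, p < k → φ p = Function.update φ k x p := by
    intro p hp
    rw [Function.update_of_ne (by omega)]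
  intro p hp
  unfold ext
  split_ifs with h
  · subst h
    rw [Function.update_self]
    exact real_ext G c3 c4 hφ hx
  · rw [Function.update_of_ne h]
    exact real_ext G c3 c4 (fun q hq => hφ q (by omega)) (hI p (by omega))

/-- membership in `upd` -/
theorem mem_upd_off {k cm : ℕ} {M : List (ℕ × ℕ)} {L : List ℕ} {d : ℕ} (hd : d ∈ L)
    (hg : good M d = true) : d ∈ upd k cm M L := by
  induction L with
  | nil => simp at hd
  | cons e L ih =>
    unfold upd
    rcases List.mem_cons.1 hd with h | h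
    · subst h
      simp [hg]
    · have := ih h
      split_ifs <;> simp [this]

theorem mem_upd_on {k cm : ℕ} {M : List (ℕ × ℕ)} {L : List ℕ} {d : ℕ} (hd : d ∈ L)
    (hc : Nat.land d cm = 0) (hg : good M (Nat.lor d (bit k)) = true) :
    Nat.lor d (bit k) ∈ upd k cm M L := by
  induction L with
  | nil => simp at hd
  | cons e L ih =>
    unfold upd
    rcases List.mem_cons.1 hd with h | h
    · subst h
      have hc' : Nat.beq (Nat.land d cm) 0 = true := by rw [hc]; rfl
      simp only [hg, hc']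
      split_ifs <;> simp_all
    · have := ih h
      split_ifs <;> simp only [List.mem_cons, this, or_true]

theorem good_of {M : List (ℕ × ℕ)} {d : ℕ} (h : ∀ m ∈ M, Nat.land d m.1 ≠ m.2) :
    good M d = true := by
  unfold good
  rw [List.all_eq_true]
  intro m hm
  have := h m hm
  rw [Bool.not_eq_true']
  by_contra h'
  rw [Bool.not_eq_false] at h'
  exact this (Nat.eq_of_beq_eq_true h')

def Cover (φ : ℕ → V) (k : ℕ) (L : List ℕ) : Prop := ∀ x : V, ∃ d ∈ L, Real G c3 c4 φ k x d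

theorem cover_upd {φ : ℕ → V} {k : ℕ} (hk : k < 16) {S : ℕ → ℕ} {L : List ℕ}
    (h3 : ∀ x y, G.Adj x y → c3 x ≠ c3 y) (h4 : ∀ x y, G.Adj x y → c4 x ≠ c4 y)
    (b3 : ∀ x, c3 x < 3) (hI : Inv G c3 c4 φ k S) (hC : Cover G c3 c4 φ k L) {x : V} {c : ℕ} (hc : c < 2 ^ 23)
    (hx : Real G c3 c4 φ k x c) (hP : ∀ v : Fin 5 → V, ¬ P5 G v) {ps : List ℕ}
    (hps : ∀ n ∈ ps, patOK (ext S k c) (k + 1) n = true) :
    Cover G c3 c4 (Function.update φ k x) (k + 1)
      (upd k ((c / 65536) * 65536) (ps.map fun n => (patX n, patY n)) L) := by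
  intro y
  obtain ⟨d, hd, hy⟩ := hC y
  have hI' := inv_ext G c3 c4 hI hx
  have hφ : ∀ p, p < k → φ p = Function.update φ k x p := by
    intro p hp
    rw [Function.update_of_ne (by omega)]
  have hgood : ∀ d', Real G c3 c4 (Function.update φ k x) (k + 1) y d' →
      good (ps.map fun n => (patX n, patY n)) d' = true := by
    intro d' hd'
    apply good_of
    intro m hm
    obtain ⟨n, hn, rfl⟩ := List.mem_map.1 hm
    exact pat_sound G c3 c4 (by omega) hI' hP (hps n hn) hd'
  by_cases hyx : G.Adj y x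
  · have hr : Real G c3 c4 (Function.update φ k x) (k + 1) y (Nat.lor d (bit k)) := by
      intro n hn
      have e1 : Nat.testBit (Nat.lor d (bit k)) n = (Nat.testBit d n || decide (k = n)) := by
        have := Nat.testBit_or d (bit k) n
        rw [testBit_bit] at this
        exact this
      rw [e1, Bool.or_eq_true, decide_eq_true_eq, hy n hn]
      constructor
      · rintro ((⟨h1, h2⟩ | h1 | h1) | h1)
        · exact Or.inl ⟨by omega, by rw [← hφ n h1]; exact h2⟩
        · exact Or.inr (Or.inl h1)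
        · exact Or.inr (Or.inr h1)
        · subst h1
          exact Or.inl ⟨by omega, by rw [Function.update_self]; exact hyx⟩
      · rintro (⟨h1, h2⟩ | h1 | h1)
        · by_cases hnk : k = n
          · exact Or.inr hnk
          · have hlt : n < k := by omega
            exact Or.inl (Or.inl ⟨hlt, by rw [hφ n hlt]; exact h2⟩)
        · exact Or.inl (Or.inr (Or.inl h1))
        · exact Or.inl (Or.inr (Or.inr h1))
    refine ⟨_, mem_upd_on hd ?_ (hgood _ hr), hr⟩
    apply Nat.eq_of_testBit_eq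
    intro n
    rw [Nat.zero_testBit]
    have e1 : Nat.testBit (Nat.land d ((c / 65536) * 65536)) n =
        (Nat.testBit d n && Nat.testBit ((c / 65536) * 65536) n) :=
      Nat.testBit_and d _ n
    rw [e1]
    have e2 : Nat.testBit ((c / 65536) * 65536) n = (decide (16 ≤ n) && Nat.testBit c n) := by
      have : (65536 : ℕ) = 2 ^ 16 := by norm_num
      rw [this, Nat.testBit_mul_two_pow, Nat.testBit_div_two_pow]
      by_cases h : 16 ≤ n
      · simp [h, Nat.sub_add_cancel h]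
      · simp [h]
    rw [e2]
    by_contra hcon
    rw [Bool.not_eq_false, Bool.and_eq_true, Bool.and_eq_true, decide_eq_true_eq] at hcon
    obtain ⟨t1, t2, t3⟩ := hcon
    have hn23 : n < 23 := by
      by_contra hge
      have : Nat.testBit c n = false := by
        apply Nat.testBit_lt_two_pow
        calc c < 2 ^ 23 := hc
          _ ≤ 2 ^ n := Nat.pow_le_pow_right (by norm_num) (by omega)
      rw [this] at t3
      exact absurd t3 (by simp)
    rw [hy n hn23] at t1
    rw [hx n hn23] at t3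
    have k3 := h3 y x hyx
    have k4 := h4 y x hyx
    have kb := b3 x
    have kb' := b3 y
    rcases t1 with ⟨h1, _⟩ | h1 | h1
    · omega
    · rcases t3 with ⟨h2, _⟩ | h2 | h2
      · omega
      · omega
      · omega
    · rcases t3 with ⟨h2, _⟩ | h2 | h2
      · omega
      · omega
      · omega
  · have hr : Real G c3 c4 (Function.update φ k x) (k + 1) y d := by
      intro n hn
      rw [hy n hn]
      constructor
      · rintro (⟨h1, h2⟩ | h1)
        · exact Or.inl ⟨by omega, by rw [← hφ n h1]; exact h2⟩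
        · exact Or.inr h1
      · rintro (⟨h1, h2⟩ | h1)
        · by_cases hnk : n = k
          · subst hnk
            rw [Function.update_self] at h2
            exact absurd h2 hyx
          · have hlt : n < k := by omega
            exact Or.inl ⟨hlt, by rw [hφ n hlt]; exact h2⟩
        · exact Or.inr h1
    exact ⟨d, mem_upd_off hd (hgood _ hr), hr⟩

theorem check_sound (h3 : ∀ x y, G.Adj x y → c3 x ≠ c3 y) (h4 : ∀ x y, G.Adj x y → c4 x ≠ c4 y)
    (b3 : ∀ x, c3 x < 3) (hP : ∀ v : Fin 5 → V, ¬ P5 G v)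
    (hF : ∀ v : V, ∀ j : ℕ, j < 4 → j ≠ c4 v → ∃ w, G.Adj v w ∧ c4 w = j) :
    ∀ (C : Cert) (φ : ℕ → V) (S : ℕ → ℕ) (k : ℕ) (L : List ℕ), k ≤ 16 →
      Inv G c3 c4 φ k S → Cover G c3 c4 φ k L → check C S k L = true → False := by
  intro C
  induction C with
  | c v j =>
    intro φ S k L hk hI hC hch
    simp only [check, Bool.and_eq_true, decide_eq_true_eq, Bool.not_eq_true', List.all_eq_true]
      at hch
    obtain ⟨⟨⟨hv, hj⟩, hb⟩, hall⟩ := hch
    have hne : j ≠ c4 (φ v) := by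
      intro he
      have := (hI v hv (19 + j) (by omega)).2 (Or.inr (Or.inr (by omega)))
      rw [this] at hb
      exact absurd hb (by simp)
    obtain ⟨w, hw, hwj⟩ := hF (φ v) j hj hne
    obtain ⟨d, hd, hr⟩ := hC w
    have h1 := hall d hd
    have t1 : Nat.testBit d v = true :=
      (hr v (by omega)).2 (Or.inl ⟨hv, hw.symm⟩)
    have t2 : Nat.testBit d (19 + j) = true :=
      (hr (19 + j) (by omega)).2 (Or.inr (Or.inr (by omega)))
    rw [t1, t2] at h1
    exact absurd h1 (by simp)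
  | a c ps s r ihs ihr =>
    intro φ S k L hk hI hC hch
    simp only [check, Bool.and_eq_true, decide_eq_true_eq, List.all_eq_true] at hch
    obtain ⟨⟨⟨⟨hk16, hc⟩, hps⟩, hs⟩, hr⟩ := hch
    have hno : ∀ x, ¬ Real G c3 c4 φ k x c := by
      intro x hx
      exact ihs (Function.update φ k x) (ext S k c) (k + 1) _ (by omega)
        (inv_ext G c3 c4 hI hx) (cover_upd G c3 c4 hk16 h3 h4 b3 hI hC hc hx hP hps) hs
    refine ihr φ S k _ hk hI ?_ hr
    intro x
    obtain ⟨d, hd, hx⟩ := hC x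
    refine ⟨d, ?_, hx⟩
    rw [List.mem_filter]
    refine ⟨hd, ?_⟩
    rw [Bool.not_eq_true']
    by_contra h'
    rw [Bool.not_eq_false] at h'
    have := Nat.eq_of_beq_eq_true h'
    subst this
    exact hno x hx

end Pool.Agent.H125R3.FrozenP5
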