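import Pool.Agent.H125R3.MixQs

set_option autoImplicit false
set_option maxRecDepth 100000

namespace Pool.Agent.H125R3.Mixing

def cert1_3 : Cert :=
(.a 1 []
(.a 3 [4624]
(.l 4 [0,0,1,2])
(.a 2 []
(.a 1 [770,531]
(.a 14 [1056,5153]
(.l 4 [0,1,2,4])
(.a 12 [260,1056,1073]
(.l 4 [1,0,1,2,4,3])
(.l 0 [2,0])))
(.l 0 [0,2]))
(.a 1 []
(.l 0 [1,2])
(.a 0 [258]
(.l 0 [2,0])
(.l 5 [])))))
(.a 0 []
(.l 0 [0,1])
(.l 5 [])))

theorem check1_3 : run (leafP1 2 Qs3) cert1_3 [(0, [])] (fun _ => 0) 0 [0] = true := by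
  decide +kernel

end Pool.Agent.H125R3.Mixing
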