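import Pool.Agent.H125R3.MixQs

set_option autoImplicit false
set_option maxRecDepth 100000

namespace Pool.Agent.H125R3.Mixing

def init2_2_0 : List (Nat × List Nat) := [(0,[]),(1,[])]

def cert2_2_0 : Cert :=
(.a 65539 [8194,4624]
(.l 3 [])
(.a 65537 [8194]
(.a 65538 [515,786,8195]
(.a 13 [1057,5152]
(.l 3 [])
(.a 12 [1072,1057,260]
(.l 3 [])
(.l 0 [2,1])))
(.l 1 [1]))
(.l 1 [0])))

theorem check2_2_0 : run (leafP2 2) cert2_2_0 init2_2_0 (fun _ => 0) 0 [0, 65536] = true := by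
  decide +kernel

end Pool.Agent.H125R3.Mixing
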