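import Pool.Agent.H125R3.MixQs

set_option autoImplicit false
set_option maxRecDepth 100000

namespace Pool.Agent.H125R3.Mixing

def init2_3_1 : List (Nat × List Nat) := [(0,[]),(1,[]),(2,[]),(4,[800,259]),(9,[1073,1026,532])]

def cert2_3_1 : Cert :=
(.a 65567 [8197,5392,5426,5440,5409,5443]
(.l 3 [])
(.a 65565 [8197,1329,1345,5440,5426,5443]
(.a 65566 [8198,1568,1584,5699,1557,1286,5665,5682]
(.l 3 [])
(.a 65563 [8198,1538,1602,5699,1557,1318,5648,5696]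
(.l 3 [])
(.a 65562 [8198,1584,5699,1557,1602,1286,1318]
(.l 3 [])
(.l 1 [1]))))
(.a 65563 [8197,1282,1346,5392,5443,5440]
(.a 65559 [8198,5696,1539,1555,1573,1334,5648,5665]
(.l 3 [])
(.a 65557 [8198,5696,1601,1573,1539,1302,1334]
(.l 3 [])
(.l 1 [2])))
(.a 65559 [8197,1283,5392,1299,5440,5409]
(.a 65551 [8198,5648,1556,1572,1589,1350,5665,5682]
(.l 3 [])
(.a 65547 [8198,5648,1538,1589,1556,1318,1350]
(.l 3 [])
(.l 1 [3])))
(.a 65551 [8197,5392,1300,1316,5426,5409]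
(.a 65566 [8198,1568,1584,5665,1605,1286,5682,5699]
(.l 3 [])
(.a 65558 [8198,1568,5665,1605,1555,1286,1334]
(.l 3 [])
(.l 1 [4])))
(.a 65557 [8197,1283,5440,1345]
(.a 65558 [1286,1555,5665,8198,1557,1568]
(.l 1 [3])
(.a 65554 [1602,1286,1555,8198,1557,806,1318]
(.l 1 [3])
(.l 1 [1])))
(.a 65549 [8197,1329,5426,1316]
(.a 65566 [1286,1568,1584,5682,8198,5665,5699,1557,1605]
(.l 3 [])
(.a 65556 [1568,1286,1601,8198,1605,262,1334]
(.l 1 [1])
(.l 1 [4])))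
(.a 65547 [8197,1282,5392,1300]
(.a 65541 [1539,1302,1572,8198,1573,1078,1334]
(.l 1 [4])
(.l 1 [2]))
(.a 65545 [8197,1282,1329,533]
(.a 65541 [1539,1078,1572,8198,1573,1334]
(.l 1 [1])
(.l 1 [2]))
(.a 65541 [8197,1283,1316,1077]
(.l 1 [3])
(.l 1 [0])))))))))))

theorem check2_3_1 : run (leafP2 3) cert2_3_1 init2_3_1 (fun _ => 0) 0 [0, 65536] = true := by
  decide +kernel

end Pool.Agent.H125R3.Mixing
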