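import Pool.Agent.H125R3.MixQs

set_option autoImplicit false
set_option maxRecDepth 100000

namespace Pool.Agent.H125R3.Mixing

def init2_4_2 : List (Nat × List Nat) := [(0,[]),(1,[]),(1,[]),(1,[]),(6,[1043,772,1059]),(26,[5441,1330,1344,517,1298]),(60,[1600,1616,5698,5715,262,1569,1585,5716])]

def cert2_4_2 : Cert :=
(.a 65627 [8199,1810,5988,1842,5904,5936,1797,5953,5987]
(.a 65614 [8200,2085,1800,2100,2087,1352,6242,6243,1864]
(.l 1 [5])
(.a 65566 [8200,2085,1800,2070,2087,1624,6209,6210,1896]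
(.l 1 [5])
(.a 65550 [8200,2085,1800,2100,1608,2070,2087,1864,1896,1352,1624]
(.l 1 [5])
(.l 1 [2]))))
(.a 65639 [8199,1811,5989,1796,5904,5920,5969,5986,1827]
(.a 65614 [8200,2100,1800,2085,2103,1352,6242,6243,1880]
(.l 1 [4])
(.a 65582 [8200,2100,1800,2070,2103,1608,6225,6227,1896]
(.l 1 [4])
(.a 65550 [8200,2100,1800,2085,1624,2070,2103,1880,1896,1352,1608]
(.l 1 [4])
(.l 1 [3]))))
(.a 65626 [8199,1810,1856,5988,1888,519,1842,5953,5987]
(.a 65582 [8200,2128,1608,2087,6225,6227,1864,1896,2100,2070,2135]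
(.l 1 [0])
(.l 1 [5]))
(.a 65638 [8199,1811,1872,5989,1888,775,5969,5986,1827]
(.a 65566 [8200,2112,1624,2103,6209,6210,1880,1896,2085,2070,2119]
(.l 1 [0])
(.l 1 [4]))
(.a 65614 [8199,1888,5986,1844,1829,5987,1351]
(.a 65625 [1816,2053,2097,2145,8200,6244,2098,6192,6243,2055,2119,1304,1832]
(.l 1 [5])
(.a 65637 [1816,2052,2081,2145,8200,6245,6176,2083,6242,2055,2135,1048,1848]
(.l 1 [4])
(.l 1 [0])))
(.a 65582 [8199,1844,1814,5969,5971,1607,1872]
(.a 65635 [1832,2067,2130,8200,2066,6245,6160,2052,6225,2055,2151,1064,1848]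
(.l 1 [4])
(.a 65602 [1880,2067,1848,2066,8200,520,2151,1336,1064,1832,1352]
(.l 1 [0])
(.l 1 [6])))
(.a 65566 [8199,1829,1814,5953,5954,1623,1856]
(.a 65619 [1848,2066,2115,8200,2067,6244,6160,2053,6209,2055,2151,1832,1336]
(.l 1 [5])
(.a 65602 [1864,2066,1832,2067,8200,776,2151,1064,1336,1848,1352]
(.l 1 [0])
(.l 1 [6])))
(.a 65635 [8199,1810,1811,5989,1874,5904,1063,5969,1796]
(.l 1 [2])
(.a 65619 [8199,1810,1811,5988,1859,5904,1335,5953,1797]
(.l 1 [2])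
(.a 65550 [8199,1814,1844,1351,1829,1607,1623]
(.a 65597 [1816,2081,6176,6192,2097,6210,2119,2135,8200,6227,6228,2054,2055]
(.l 1 [6])
(.l 1 [0]))
(.a 65602 [8199,1810,1811,519,1888,775,1063,1335,1351]
(.l 1 [2])
(.l 1 [1]))))))))))))

theorem check2_4_2 : run (leafP2 4) cert2_4_2 init2_4_2 (fun _ => 0) 0 [0, 65536] = true := by
  decide +kernel

end Pool.Agent.H125R3.Mixing
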