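import Pool.Agent.H125R3.MixQs

set_option autoImplicit false
set_option maxRecDepth 100000

namespace Pool.Agent.H125R3.Mixing

def init2_4_5 : List (Nat × List Nat) := [(0,[]),(1,[]),(3,[4624]),(3,[4880]),(5,[788,1059,5152]),(1,[533,789,1061]),(1,[534,790,1062]),(122,[1874,5937,1890,519,1842]),(124,[2129,264,2145,6210,2087,1816,2113]),(114,[2371,1849,2386,2403,521,777,2402,2387,2328,2089,2105]),(620,[2612,6805,266,2712,2644,6806,1866,2599,2704,2660,2711,1034,2122]),(1330,[2883,7044,7077,7045,2838,2902,1547,2898,2944,2899,2951,2953,523,2411]),(2764,[3124,7283,7318,3248,3109,268,3184,3169,3173,7286,3194,1292,2652])]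

def cert2_4_5 : Cert :=
(.a 73605 [8205,3457,3365,3525,7456,7623,7618,797]
(.l 1 [5])
(.a 69517 [8205,3457,3380,7456,3492,7593,7539,7587,3365,3181]
(.l 1 [4])
(.a 68557 [8205,3425,3457,7456,3365,7574,7558,7608,2653]
(.l 1 [1])
(.a 68333 [8205,3425,3340,7456,7605,3420,7504,3380,2125]
(.l 1 [12])
(.a 73603 [8205,3442,3510,3350,7440,7608,7601,1069]
(.l 1 [6])
(.a 71571 [8205,3442,3395,7440,3475,7593,7556,7572,3349,2909]
(.l 1 [3])
(.a 71091 [8205,3442,3410,7440,7589,3350,7541,7623,2413]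
(.l 1 [2])
(.a 71027 [8205,3339,3435,7440,7622,3395,7520,1853]
(.l 1 [11])
(.a 73601 [8205,3457,3525,7623,7608,3510,7627,541]
(.a 70963 [3666,3518,7845,8206,3595,7696,7760,3651,3677]
(.l 1 [2])
(.a 70962 [3666,3518,7845,8206,3606,3776,7812,3721,3677,526,3342]
(.l 1 [2])
(.l 1 [5])))
(.a 69509 [8205,3457,3365,7456,3492,7593,7586,797]
(.a 71059 [3651,3374,7812,8206,3698,7879,7796,3605,3661]
(.l 1 [3])
(.a 70931 [3651,3374,7812,8206,3781,3751,7696,3595,3661,1854,3454]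
(.l 1 [3])
(.l 1 [4])))
(.a 68493 [8205,3457,3380,7456,7539,7608,3365,7555,2653]
(.a 71555 [3606,3390,8206,7696,3731,7849,7825,3698,3613]
(.l 1 [4])
(.a 71043 [3606,3390,8206,7696,3698,3721,3748,7879,3613,2414,3486]
(.l 1 [4])
(.l 1 [1])))
(.a 68301 [8205,3340,3425,7456,7574,7520,3380,2125]
(.a 71553 [3781,3438,8206,7879,3713,3595,3731,7849,3789,2910,3518]
(.l 1 [1])
(.l 1 [12]))
(.a 71555 [8205,3442,7440,3350,3475,7593,7569,1069]
(.a 68237 [3636,3358,7795,8206,3766,3736,7712,3596,3645,2126,3470]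
(.l 1 [4])
(.l 1 [3]))
(.a 71059 [8205,3442,3395,7440,7556,7623,3349,7540,2397]
(.a 68485 [3621,3406,8206,7712,3713,3706,3731,7864,3629,2654,3502]
(.l 1 [3])
(.l 1 [2]))
(.a 70963 [8205,3339,3410,7440,7589,7504,3395,1853]
(.a 69505 [3766,3422,8206,7864,3698,3596,3748,7849,3773,3182,3534]
(.l 1 [2])
(.l 1 [11]))
(.a 71553 [8205,3457,3339,7623,797,3475,3525,7593,2909]
(.a 68237 [3736,7712,8206,3766,2126,7795,3636,3596,3182]
(.l 1 [1])
(.l 1 [3]))
(.a 69505 [8205,3457,7608,3442,3340,1069,3492,3510,7593,3181]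
(.a 70931 [3751,7696,3781,8206,1854,3651,7812,3595,2910]
(.l 1 [2])
(.l 1 [4]))
(.a 68485 [8205,3457,3450,7456,797,3475,3365,7608,2653]
(.a 71043 [3721,7696,8206,3698,1070,3748,3606,7879,2414]
(.l 1 [3])
(.l 1 [1]))
(.a 68237 [8205,3340,7456,3480,2125,3510,7539,3380,3181]
(.l 1 [8])
(.a 71043 [8205,3442,7440,3350,1069,3492,7623,3465,2413]
(.l 1 [2])
(.a 70931 [8205,3339,7440,3395,1853,3525,7556,3495,2909]
(.l 1 [7])
(.l 1 [0]))))))))))))))))))))))

theorem check2_4_5 : run (leafP2 4) cert2_4_5 init2_4_5 (fun _ => 0) 0 [0, 65536] = true := by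
  decide +kernel

end Pool.Agent.H125R3.Mixing
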