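import Pool.Agent.H125R3.MixLeaf

set_option autoImplicit false

namespace Pool.Agent.H125R3.Mixing

open SimpleGraph Relation

variable {V : Type} {G : SimpleGraph V}

/-- One recolouring step inside `W`. -/
def Step (G : SimpleGraph V) (W : Finset V) (P : Finset ℕ) (c d : V → ℕ) : Prop :=
  ProperOn G W P c ∧ ProperOn G W P d ∧ ∃ v ∈ W, ∀ w, w ≠ v → c w = d w

def Mix (G : SimpleGraph V) (W : Finset V) (P : Finset ℕ) : Prop :=
  ∀ c d, ProperOn G W P c → ProperOn G W P d → (∀ v, v ∉ W → c v = d v) →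
    ReflTransGen (Step G W P) c d

theorem Step.symm {W : Finset V} {P : Finset ℕ} {c d : V → ℕ} (h : Step G W P c d) :
    Step G W P d c := by
  obtain ⟨h1, h2, v, hv, h3⟩ := h
  exact ⟨h2, h1, v, hv, fun w hw => (h3 w hw).symm⟩

theorem reach_symm {W : Finset V} {P : Finset ℕ} {c d : V → ℕ}
    (h : ReflTransGen (Step G W P) c d) : ReflTransGen (Step G W P) d c := by
  induction h with
  | refl => exact ReflTransGen.refl
  | tail _ h2 ih => exact ReflTransGen.head h2.symm ih

theorem glue {W W' I : Finset V} {P P' : Finset ℕ} {x : ℕ} {e : V → ℕ}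
    (hW' : ∀ v ∈ W, v ∉ I → v ∈ W') (hind : ∀ u ∈ I, ∀ v ∈ I, ¬ G.Adj u v)
    (hx : x ∈ P) (hP' : ∀ y ∈ P', y ∈ P ∧ y ≠ x) (hI : ∀ v ∈ I, e v = x)
    (he : ProperOn G W' P' e) : ProperOn G W P e := by
  refine ⟨?_, ?_⟩
  · intro v hv
    by_cases hvI : v ∈ I
    · rw [hI v hvI]; exact hx
    · exact (hP' _ (he.1 v (hW' v hv hvI))).1
  · intro u hu v hv huv
    by_cases huI : u ∈ I
    · by_cases hvI : v ∈ I
      · exact absurd huv (hind u huI v hvI)
      · rw [hI u huI]
        exact (hP' _ (he.1 v (hW' v hv hvI))).2.symm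
    · by_cases hvI : v ∈ I
      · rw [hI v hvI]
        exact (hP' _ (he.1 u (hW' u hu huI))).2
      · exact he.2 u (hW' u hu huI) v (hW' v hv hvI) huv

/-- Lemma A. -/
theorem lemA [DecidableEq V] {W I : Finset V} {P : Finset ℕ} {x : ℕ} {c d : V → ℕ}
    (hx : x ∈ P) (hind : ∀ u ∈ I, ∀ v ∈ I, ¬ G.Adj u v)
    (hmix : Mix G (W \ I) (P.erase x))
    (hc : ProperOn G W P c) (hd : ProperOn G W P d)
    (hcI : ∀ v ∈ W, c v = x → v ∈ I) (hdI : ∀ v ∈ W, d v = x → v ∈ I)
    (hcI' : ∀ v ∈ I, c v = x) (hdI' : ∀ v ∈ I, d v = x)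
    (hout : ∀ v, v ∉ W → c v = d v) : ReflTransGen (Step G W P) c d := by
  have res : ∀ e : V → ℕ, ProperOn G W P e → (∀ v ∈ W, e v = x → v ∈ I) →
      ProperOn G (W \ I) (P.erase x) e := by
    intro e he heI
    refine ⟨?_, ?_⟩
    · intro v hv
      rw [Finset.mem_sdiff] at hv
      exact Finset.mem_erase.2 ⟨fun h => hv.2 (heI v hv.1 h), he.1 v hv.1⟩
    · intro u hu v hv huv
      exact he.2 u (Finset.mem_sdiff.1 hu).1 v (Finset.mem_sdiff.1 hv).1 huv
  have hr := hmix c d (res c hc hcI) (res d hd hdI) (fun v hv => by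
    by_cases hvI : v ∈ I
    · rw [hcI' v hvI, hdI' v hvI]
    · exact hout v (fun h => hv (Finset.mem_sdiff.2 ⟨h, hvI⟩)))
  have gl : ∀ e : V → ℕ, ProperOn G (W \ I) (P.erase x) e → (∀ v ∈ I, e v = x) →
      ProperOn G W P e := by
    intro e he heI
    exact glue (fun v hv hvI => Finset.mem_sdiff.2 ⟨hv, hvI⟩) hind hx
      (fun y hy => ⟨Finset.mem_of_mem_erase hy, (Finset.mem_erase.1 hy).1⟩) heI he
  have key : ∀ e, ReflTransGen (Step G (W \ I) (P.erase x)) c e →
      (∀ v ∈ I, e v = x) ∧ ReflTransGen (Step G W P) c e := by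
    intro e he
    induction he with
    | refl => exact ⟨hcI', ReflTransGen.refl⟩
    | @tail e e' _ h2 ih =>
      obtain ⟨h3, h4⟩ := ih
      obtain ⟨h5, h6, v, hv, h7⟩ := h2
      rw [Finset.mem_sdiff] at hv
      have h8 : ∀ v ∈ I, e' v = x := by
        intro w hw
        rw [← h7 w (fun h => hv.2 (h ▸ hw))]
        exact h3 w hw
      exact ⟨h8, h4.tail ⟨gl e h5 h3, gl e' h6 h8, v, hv.1, h7⟩⟩
  exact (key d hr).2

/-- Extension of a colour class. -/
theorem extend [DecidableEq V] {W I : Finset V} {P : Finset ℕ} {x : ℕ} {c : V → ℕ}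
    (hx : x ∈ P) (hIW : I ⊆ W) (hind : ∀ u ∈ I, ∀ v ∈ I, ¬ G.Adj u v)
    (hc : ProperOn G W P c) (hcI : ∀ v ∈ W, c v = x → v ∈ I) :
    ReflTransGen (Step G W P) c (fun v => if v ∈ I then x else c v) ∧
      ProperOn G W P (fun v => if v ∈ I then x else c v) := by
  have prop : ∀ J : Finset V, J ⊆ I → ProperOn G W P (fun v => if v ∈ J then x else c v) := by
    intro J hJ
    refine ⟨?_, ?_⟩
    · intro v hv
      dsimp only
      split_ifs
      · exact hx
      · exact hc.1 v hv
    · intro u hu v hv huv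
      dsimp only
      split_ifs with h1 h2 h2
      · exact absurd huv (hind u (hJ h1) v (hJ h2))
      · intro h3
        exact hind u (hJ h1) v (hcI v hv h3.symm) huv
      · intro h3
        exact hind u (hcI u hu h3) v (hJ h2) huv
      · exact hc.2 u hu v hv huv
  have main : ∀ J : Finset V, J ⊆ I →
      ReflTransGen (Step G W P) c (fun v => if v ∈ J then x else c v) := by
    intro J
    induction J using Finset.induction_on with
    | empty =>
      intro _
      simp only [Finset.notMem_empty, if_false]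
      exact ReflTransGen.refl
    | insert a J haJ ih =>
      intro hJ
      have hJ' : J ⊆ I := fun z hz => hJ (Finset.mem_insert_of_mem hz)
      have haI : a ∈ I := hJ (Finset.mem_insert_self _ _)
      refine (ih hJ').tail ⟨prop J hJ', prop _ hJ, a, hIW haI, ?_⟩
      intro w hw
      simp only [Finset.mem_insert, hw, false_or]
  exact ⟨main I (Finset.Subset.refl _), prop I (Finset.Subset.refl _)⟩

theorem colOn_palette {W : Finset V} {m : ℕ} (h : ColOn G W m) {Q : Finset ℕ} (hQ : m ≤ Q.card) :
    ∃ f, ProperOn G W Q f := by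
  obtain ⟨f, hf1, hf2⟩ := h
  let emb := Q.orderEmbOfFin rfl
  have hlt : ∀ v ∈ W, f v < Q.card := fun v hv =>
    lt_of_lt_of_le (Finset.mem_range.1 (hf1 v hv)) hQ
  refine ⟨fun v => if h : f v < Q.card then emb ⟨f v, h⟩ else 0, ?_, ?_⟩
  · intro v hv
    dsimp only
    rw [dif_pos (hlt v hv)]
    exact Finset.orderEmbOfFin_mem Q rfl _
  · intro u hu v hv huv
    dsimp only
    rw [dif_pos (hlt u hu), dif_pos (hlt v hv)]
    intro h
    have := emb.injective h
    exact hf2 u hu v hv huv (by simpa using this)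

/-- The good families of independent sets give mixing. -/
theorem nice [DecidableEq V] {W : Finset V} {P : Finset ℕ} (F : Finset V → Prop)
    (hF : ∀ I, F I → I ⊆ W ∧ (∀ u ∈ I, ∀ v ∈ I, ¬ G.Adj u v) ∧ ColOn G (W \ I) (P.card - 2) ∧
      ∀ x ∈ P, Mix G (W \ I) (P.erase x)) (hP2 : 2 ≤ P.card)
    (hcl : ∀ c, ProperOn G W P c → ∃ x ∈ P, ∃ I, F I ∧ ∀ v ∈ W, c v = x → v ∈ I) :
    Mix G W P := by
  have hpal : ∀ x ∈ P, ∀ y ∈ P, x ≠ y → P.card - 2 ≤ ((P.erase x).erase y).card := by
    intro x hx y hy hxy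
    rw [Finset.card_erase_of_mem (Finset.mem_erase.2 ⟨hxy.symm, hy⟩), Finset.card_erase_of_mem hx]
    omega
  -- a colouring with class `x = I` and no `y`
  have mk : ∀ I, F I → ∀ x ∈ P, ∀ y ∈ P, x ≠ y → ∀ c : V → ℕ, ∃ e, ProperOn G W P e ∧
      (∀ v ∈ W, e v = x → v ∈ I) ∧ (∀ v ∈ I, e v = x) ∧ (∀ v ∈ W, e v ≠ y) ∧
      (∀ v, v ∉ W → e v = c v) := by
    intro I hI x hx y hy hxy c
    obtain ⟨hIW, hind, hcol, _⟩ := hF I hI
    obtain ⟨f, hf⟩ := colOn_palette hcol (hpal x hx y hy hxy)
    have hfx : ∀ v ∈ W \ I, f v ≠ x ∧ f v ≠ y := by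
      intro v hv
      have := hf.1 v hv
      rw [Finset.mem_erase, Finset.mem_erase] at this
      exact ⟨this.2.1, this.1⟩
    refine ⟨fun v => if v ∈ I then x else if v ∈ W then f v else c v, ?_, ?_, ?_, ?_, ?_⟩
    · refine glue (W' := W \ I) (P' := (P.erase x).erase y)
        (fun v hv hvI => Finset.mem_sdiff.2 ⟨hv, hvI⟩) hind hx ?_ ?_ ?_
      · intro z hz
        rw [Finset.mem_erase, Finset.mem_erase] at hz
        exact ⟨hz.2.2, hz.2.1⟩
      · intro v hv
        simp [hv]
      · refine ⟨?_, ?_⟩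
        · intro v hv
          have hv' := Finset.mem_sdiff.1 hv
          simp only [hv'.1, hv'.2, if_false, if_true]
          exact hf.1 v hv
        · intro u hu v hv huv
          have hu' := Finset.mem_sdiff.1 hu
          have hv' := Finset.mem_sdiff.1 hv
          simp only [hv'.1, hv'.2, hu'.1, hu'.2, if_false, if_true]
          exact hf.2 u hu v hv huv
    · intro v hv h
      by_contra hvI
      simp only [hv, hvI, if_false, if_true] at h
      exact (hfx v (Finset.mem_sdiff.2 ⟨hv, hvI⟩)).1 h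
    · intro v hv
      simp [hv]
    · intro v hv h
      by_cases hvI : v ∈ I
      · simp only [hvI, if_true] at h
        exact hxy h
      · simp only [hv, hvI, if_false, if_true] at h
        exact (hfx v (Finset.mem_sdiff.2 ⟨hv, hvI⟩)).2 h
    · intro v hv
      have : v ∉ I := fun h => hv (hIW h)
      simp [hv, this]
  -- the case `x ≠ y`
  have ne : ∀ I, F I → ∀ J, F J → ∀ x ∈ P, ∀ y ∈ P, x ≠ y → ∀ c d, ProperOn G W P c →
      ProperOn G W P d → (∀ v ∈ W, c v = x → v ∈ I) → (∀ v ∈ I, c v = x) →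
      (∀ v ∈ W, d v = y → v ∈ J) → (∀ v ∈ J, d v = y) → (∀ v, v ∉ W → c v = d v) →
      ReflTransGen (Step G W P) c d := by
    intro I hI J hJ x hx y hy hxy c d hc hd hc1 hc2 hd1 hd2 hout
    obtain ⟨hIW, hindI, _, hmixI⟩ := hF I hI
    obtain ⟨hJW, hindJ, _, hmixJ⟩ := hF J hJ
    obtain ⟨e, he, he1, he2, he3, he4⟩ := mk I hI x hx y hy hxy c
    have r1 : ReflTransGen (Step G W P) c e :=
      lemA hx hindI (hmixI x hx) hc he hc1 he1 hc2 he2 (fun v hv => (he4 v hv).symm)
    obtain ⟨r2, p2⟩ := extend (c := e) hy hJW hindJ he (fun v hv h => absurd h (he3 v hv))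
    have r3 : ReflTransGen (Step G W P) (fun v => if v ∈ J then y else e v) d := by
      refine lemA hy hindJ (hmixJ y hy) p2 hd ?_ hd1 ?_ hd2 ?_
      · intro v hv h
        by_contra hvJ
        simp only [hvJ, if_false] at h
        exact he3 v hv h
      · intro v hv
        simp [hv]
      · intro v hv
        have : v ∉ J := fun h => hv (hJW h)
        simp only [this, if_false]
        rw [he4 v hv, hout v hv]
    exact r1.trans (r2.trans r3)
  intro c d hc hd hout
  obtain ⟨x, hx, I, hI, hcI⟩ := hcl c hc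
  obtain ⟨y, hy, J, hJ, hdJ⟩ := hcl d hd
  obtain ⟨hIW, hindI, _, _⟩ := hF I hI
  obtain ⟨hJW, hindJ, _, _⟩ := hF J hJ
  obtain ⟨r1, p1⟩ := extend hx hIW hindI hc hcI
  obtain ⟨r2, p2⟩ := extend hy hJW hindJ hd hdJ
  have a1 : ∀ v ∈ W, (fun v => if v ∈ I then x else c v) v = x → v ∈ I := by
    intro v hv h
    by_contra hvI
    simp only [hvI, if_false] at h
    exact hvI (hcI v hv h)
  have a2 : ∀ v ∈ I, (fun v => if v ∈ I then x else c v) v = x := by
    intro v hv
    simp [hv]
  have b1 : ∀ v ∈ W, (fun v => if v ∈ J then y else d v) v = y → v ∈ J := by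
    intro v hv h
    by_contra hvI
    simp only [hvI, if_false] at h
    exact hvI (hdJ v hv h)
  have b2 : ∀ v ∈ J, (fun v => if v ∈ J then y else d v) v = y := by
    intro v hv
    simp [hv]
  have ho1 : ∀ v, v ∉ W → (fun v => if v ∈ I then x else c v) v = c v := by
    intro v hv
    have : v ∉ I := fun h => hv (hIW h)
    simp [this]
  have ho2 : ∀ v, v ∉ W → (fun v => if v ∈ J then y else d v) v = d v := by
    intro v hv
    have : v ∉ J := fun h => hv (hJW h)
    simp [this]
  refine r1.trans (ReflTransGen.trans ?_ (reach_symm r2))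
  by_cases hxy : x = y
  · subst hxy
    obtain ⟨z, hz, hzx⟩ : ∃ z ∈ P, z ≠ x := by
      have : 0 < (P.erase x).card := by
        rw [Finset.card_erase_of_mem hx]; omega
      obtain ⟨z, hz⟩ := Finset.card_pos.1 this
      exact ⟨z, Finset.mem_of_mem_erase hz, (Finset.mem_erase.1 hz).1⟩
    obtain ⟨e, he, he1, he2, he3, he4⟩ := mk I hI z hz x hx hzx c
    refine ReflTransGen.trans
      (ne I hI I hI x hx z hz hzx.symm _ e p1 he a1 a2 he1 he2 (fun v hv => ?_))
      (ne I hI J hJ z hz x hx hzx e _ he p2 he1 he2 b1 b2 (fun v hv => ?_))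
    · exact (ho1 v hv).trans (he4 v hv).symm
    · exact (he4 v hv).trans ((hout v hv).trans (ho2 v hv).symm)
  · exact ne I hI J hJ x hx y hy hxy _ _ p1 p2 a1 a2 b1 b2
      (fun v hv => (ho1 v hv).trans ((hout v hv).trans (ho2 v hv).symm))

/-- The reduction at a comparable pair. -/
theorem comparable [DecidableEq V] {W : Finset V} {P : Finset ℕ} {u v : V} (hu : u ∈ W)
    (hv : v ∈ W) (huv : u ≠ v) (hna : ¬ G.Adj u v)
    (hN : ∀ w ∈ W, G.Adj u w → G.Adj v w) (hmix : Mix G (W.erase u) P) : Mix G W P := by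
  have lift : ∀ e : V → ℕ, ProperOn G (W.erase u) P e → ∀ a : ℕ, a ∈ P →
      (∀ w ∈ W, G.Adj v w → w ≠ u → e w ≠ a) → ProperOn G W P (Function.update e u a) := by
    intro e he a ha hav
    refine ⟨?_, ?_⟩
    · intro w hw
      by_cases hwu : w = u
      · subst hwu; rw [Function.update_self]; exact ha
      · rw [Function.update_of_ne hwu]
        exact he.1 w (Finset.mem_erase.2 ⟨hwu, hw⟩)
    · intro w hw w' hw' hadj
      by_cases hwu : w = u
      · subst hwu
        have hne : w' ≠ w := hadj.symm.ne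
        rw [Function.update_self, Function.update_of_ne hne]
        exact (hav w' hw' (hN w' hw' hadj) hne).symm
      · by_cases hwu' : w' = u
        · subst hwu'
          rw [Function.update_self, Function.update_of_ne hwu]
          exact hav w hw (hN w hw hadj.symm) hwu
        · rw [Function.update_of_ne hwu, Function.update_of_ne hwu']
          exact he.2 w (Finset.mem_erase.2 ⟨hwu, hw⟩) w' (Finset.mem_erase.2 ⟨hwu', hw'⟩) hadj
  have hvE : v ∈ W.erase u := Finset.mem_erase.2 ⟨huv.symm, hv⟩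
  have hvcol : ∀ e : V → ℕ, ProperOn G (W.erase u) P e → ∀ w ∈ W, G.Adj v w → w ≠ u →
      e w ≠ e v := by
    intro e he w hw hadj hwu
    exact (he.2 v hvE w (Finset.mem_erase.2 ⟨hwu, hw⟩) hadj).symm
  have res : ∀ e : V → ℕ, ProperOn G W P e → ProperOn G (W.erase u) P e := by
    intro e he
    exact ⟨fun w hw => he.1 w (Finset.mem_of_mem_erase hw),
      fun w hw w' hw' h => he.2 w (Finset.mem_of_mem_erase hw) w' (Finset.mem_of_mem_erase hw') h⟩
  intro c d hc hd hout
  -- move to the colourings in which `u` has the colour of `v`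
  have to1 : ∀ e : V → ℕ, ProperOn G W P e → Step G W P e (Function.update e u (e v)) := by
    intro e he
    refine ⟨he, lift e (res e he) (e v) (he.1 v hv) (hvcol e (res e he)), u, hu, ?_⟩
    intro w hw
    rw [Function.update_of_ne hw]
  have hd2 : ProperOn G (W.erase u) P (Function.update d u (c u)) := by
    have h := res d hd
    refine ⟨?_, ?_⟩
    · intro w hw
      rw [Function.update_of_ne (Finset.mem_erase.1 hw).1]
      exact h.1 w hw
    · intro w hw w' hw' hadj
      rw [Function.update_of_ne (Finset.mem_erase.1 hw).1,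
        Function.update_of_ne (Finset.mem_erase.1 hw').1]
      exact h.2 w hw w' hw' hadj
  have hr := hmix c (Function.update d u (c u)) (res c hc) hd2 (by
    intro w hw
    by_cases hwu : w = u
    · subst hwu; rw [Function.update_self]
    · rw [Function.update_of_ne hwu]
      exact hout w (fun h => hw (Finset.mem_erase.2 ⟨hwu, h⟩)))
  have key : ∀ e, ReflTransGen (Step G (W.erase u) P) c e →
      ReflTransGen (Step G W P) (Function.update c u (c v)) (Function.update e u (e v)) := by
    intro e he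
    induction he with
    | refl => exact ReflTransGen.refl
    | @tail e e' _ h2 ih =>
      obtain ⟨h5, h6, z, hz, h7⟩ := h2
      have hzu := (Finset.mem_erase.1 hz).1
      have hzW := Finset.mem_of_mem_erase hz
      have pe := lift e h5 (e v) (h5.1 v hvE) (hvcol e h5)
      have pe' := lift e' h6 (e' v) (h6.1 v hvE) (hvcol e' h6)
      by_cases hzv : z = v
      · subst hzv
        -- first recolour `v`, then `u`
        have pm : ProperOn G W P (Function.update e' u (e z)) := by
          refine lift e' h6 (e z) (h5.1 z hvE) ?_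
          intro w hw hadj hwu
          have hwz : w ≠ z := hadj.symm.ne
          rw [← h7 w hwz]
          exact hvcol e h5 w hw hadj hwu
        refine (ih.tail ⟨pe, pm, z, hzW, ?_⟩).tail ⟨pm, pe', u, hu, ?_⟩
        · intro w hw
          by_cases hwu : w = u
          · subst hwu; rw [Function.update_self, Function.update_self]
          · rw [Function.update_of_ne hwu, Function.update_of_ne hwu]
            exact h7 w hw
        · intro w hw
          rw [Function.update_of_ne hw, Function.update_of_ne hw]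
      · refine ih.tail ⟨pe, pe', z, hzW, ?_⟩
        intro w hw
        by_cases hwu : w = u
        · subst hwu
          rw [Function.update_self, Function.update_self]
          exact h7 v (fun h => hzv h.symm)
        · rw [Function.update_of_ne hwu, Function.update_of_ne hwu]
          exact h7 w hw
  have h8 := key _ hr
  have h9 : Function.update (Function.update d u (c u)) u ((Function.update d u (c u)) v) =
      Function.update d u (d v) := by
    rw [Function.update_idem, Function.update_of_ne huv.symm]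
  rw [h9] at h8
  exact (ReflTransGen.head (to1 c hc) h8).tail (to1 d hd).symm

end Pool.Agent.H125R3.Mixing
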