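import Mathlib

/-!
A reflective checker for the exhaustive generation of `(2K₂, K₄)`-free graphs without comparable
pairs of vertices.
-/

set_option autoImplicit false

namespace Pool.Agent.H125R3.Mixing

/-- A certificate: a leaf, or the addition of a vertex of profile `c`. -/
inductive Cert where
  | l (n : Nat) (ps : List Nat) : Cert
  | a (c : Nat) (ps : List Nat) (s r : Cert) : Cert

def bit (p : Nat) : Nat := 1 <<< p

/-- adjacency of the vertices `p ≠ q` in the state `S`. -/
def adj (S : Nat → Nat) (p q : Nat) : Bool :=
  if p < q then Nat.testBit (S q) p else Nat.testBit (S p) q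

def ext (S : Nat → Nat) (k c : Nat) : Nat → Nat := fun p => if p = k then c else S p

def patX (n : Nat) : Nat :=
  if n / 4096 = 2 then Nat.lor (bit (n % 16)) (bit 16)
  else Nat.lor (bit (n % 16)) (Nat.lor (bit (n / 16 % 16)) (bit (n / 256 % 16)))

def patY (n : Nat) : Nat :=
  if n / 4096 = 0 then bit (n % 16)
  else if n / 4096 = 2 then Nat.lor (bit (n % 16)) (bit 16)
  else Nat.lor (bit (n % 16)) (Nat.lor (bit (n / 16 % 16)) (bit (n / 256 % 16)))

def patOK (S : Nat → Nat) (k n : Nat) : Bool :=
  let p := n % 16
  let q := n / 16 % 16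
  let r := n / 256 % 16
  let m := n / 4096
  decide (p < k) &&
  (if m = 2 then Nat.testBit (S p) 16
   else
    (decide (q < k) && decide (r < k)) && (!(Nat.beq p q) && !(Nat.beq p r) && !(Nat.beq q r)) &&
    adj S q r &&
    (if m = 0 then !(adj S p q) && !(adj S p r) else adj S p q && adj S p r))

def good (M : List (Nat × Nat)) (d : Nat) : Bool :=
  M.all fun m => !(Nat.beq (Nat.land d m.1) m.2)

def upd (k : Nat) (M : List (Nat × Nat)) : List Nat → List Nat
  | [] => []
  | d :: L =>
    let L' := upd k M L
    let L'' := if good M (Nat.lor d (bit k)) then Nat.lor d (bit k) :: L' else L'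
    if good M d then d :: L'' else L''

def masks (ps : List Nat) : List (Nat × Nat) := ps.map fun n => (patX n, patY n)

/-- The checker. -/
def check (leafB : Nat → List Nat → (Nat → Nat) → Nat → List Nat → Bool) :
    Cert → (Nat → Nat) → Nat → List Nat → Bool
  | .l n ps, S, k, L => leafB n ps S k L
  | .a c ps s r, S, k, L =>
    decide (k < 16) && (ps.all fun n => patOK (ext S k c) (k + 1) n) &&
      check leafB s (ext S k c) (k + 1) (upd k (masks ps) L) &&
      check leafB r S k (L.filter fun d => !(Nat.beq d c))

/-- Forced additions, then the checker. -/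
def run (leafB : Nat → List Nat → (Nat → Nat) → Nat → List Nat → Bool) (C : Cert) :
    List (Nat × List Nat) → (Nat → Nat) → Nat → List Nat → Bool
  | [], S, k, L => check leafB C S k L
  | (c, ps) :: t, S, k, L =>
    decide (k < 16) && (ps.all fun n => patOK (ext S k c) (k + 1) n) &&
      run leafB C t (ext S k c) (k + 1) (upd k (masks ps) L)

/-- Colouring of the vertices `p, …, p+n-1` outside the mask `J`, the classes so far being `Ms`. -/
def colB (S : Nat → Nat) (J : Nat) : Nat → Nat → List Nat → Bool
  | 0, _, _ => true
  | n + 1, p, Ms =>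
    if Nat.testBit J p then colB S J n (p + 1) Ms
    else (List.range Ms.length).any fun j =>
      Nat.beq (Nat.land (S p) (Ms.getD j 0)) 0 &&
        colB S J n (p + 1) (Ms.set j (Nat.lor (Ms.getD j 0) (bit p)))

/-- Enumeration of the independent subsets of `R` which contain its least element. -/
def enumB (S : Nat → Nat) (R : Nat) (f : Nat → Bool) : Nat → Nat → Nat → Bool
  | 0, _, X => f X
  | n + 1, p, X =>
    if Nat.testBit R p && Nat.beq (Nat.land (S p) X) 0 then
      enumB S R f n (p + 1) (Nat.lor X (bit p)) && (Nat.beq X 0 || enumB S R f n (p + 1) X)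
    else enumB S R f n (p + 1) X

/-- No partition of `R` into `m` independent sets none of which lies in a member of `GM`. -/
def partB (S : Nat → Nat) (k : Nat) (GM : List Nat) : Nat → Nat → Bool
  | 0, R => !(Nat.beq R 0)
  | m + 1, R => Nat.beq R 0 ||
      enumB S R (fun X => (GM.any fun I => Nat.beq (Nat.land X I) X) ||
        partB S k GM m (Nat.xor R X)) k 0 0

/-- The mask `I` is a maximal independent set whose complement is `c`-colourable. -/
def goodMIS (S : Nat → Nat) (k c I : Nat) : Bool :=
  ((List.range k).all fun p => !(Nat.testBit I p) || Nat.beq (Nat.land (S p) I) 0) &&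
  ((List.range k).all fun p => Nat.testBit I p ||
    (List.range k).any fun q => Nat.testBit I q && adj S p q) &&
  colB S I k 0 (List.replicate c 0)

/-- leaves of both phases: comparable pairs which cannot be resolved -/
def leaf0 (u v : Nat) (S : Nat → Nat) (k : Nat) (L : List Nat) : Bool :=
  decide (u < k) && decide (v < k) && !(Nat.beq u v) && !(adj S u v) &&
  ((List.range k).all fun p => !(adj S p u && !(adj S p v))) &&
  (L.all fun d => !(Nat.testBit d u && !(Nat.testBit d v)))

/-- a vertex outside `I` without possible neighbour in `I` -/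
def leaf1 (u : Nat) (S : Nat → Nat) (k : Nat) (L : List Nat) : Bool :=
  decide (u < k) && !(Nat.testBit (S u) 16) &&
  ((List.range k).all fun p => !(Nat.testBit (S p) 16 && adj S p u)) &&
  (L.all fun d => !(Nat.testBit d 16 && Nat.testBit d u))

/-- `Q` embeds in the state by the map `ps`. -/
def embB (Q ps : List Nat) (S : Nat → Nat) (k : Nat) : Bool :=
  (List.range Q.length).all fun i => decide (ps.getD i 0 < k) &&
    (List.range i).all fun j => !(Nat.beq (ps.getD i 0) (ps.getD j 0)) &&
      (Nat.testBit (Q.getD i 0) j == adj S (ps.getD i 0) (ps.getD j 0))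

/-- leaves of phase 1 (`c` colours do not suffice for the critical graph). -/
def leafP1 (c : Nat) (Qs : List (List Nat)) (n : Nat) (ps : List Nat) (S : Nat → Nat) (k : Nat)
    (L : List Nat) : Bool :=
  if n = 0 then leaf0 (ps.getD 0 0) (ps.getD 1 0) S k L
  else if n = 4 then
    decide (ps.getD 0 0 < Qs.length) && embB (Qs.getD (ps.getD 0 0) []) ps.tail S k
  else L.isEmpty && colB S 0 k 0 (List.replicate c 0)

/-- leaves of phase 2 (the graph is `c`-colourable, `c ≥ 1`). -/
def leafP2 (c : Nat) (n : Nat) (ps : List Nat) (S : Nat → Nat) (k : Nat)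
    (L : List Nat) : Bool :=
  if n = 0 then leaf0 (ps.getD 0 0) (ps.getD 1 0) S k L
  else if n = 1 then leaf1 (ps.getD 0 0) S k L
  else if n = 3 then !(colB S 0 k 0 (List.replicate c 0))
  else L.isEmpty && !(ps.isEmpty) && (ps.all fun I => goodMIS S k (c - 1) I) &&
    partB S k ps (c + 1) (2 ^ k - 1)

end Pool.Agent.H125R3.Mixing
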