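import Pool.Agent.H125R3.MixSound

set_option autoImplicit false
set_option linter.unusedSimpArgs false

namespace Pool.Agent.H125R3.Mixing

open SimpleGraph

section Masks

theorem land_eq_zero {a b : ℕ} :
    Nat.land a b = 0 ↔ ∀ q, Nat.testBit a q = true → Nat.testBit b q = false := by
  constructor
  · intro h q hq
    have : Nat.testBit (Nat.land a b) q = false := by rw [h]; simp
    rw [testBit_land, hq] at this
    simpa using this
  · intro h
    apply Nat.eq_of_testBit_eq
    intro q
    rw [testBit_land, Nat.zero_testBit]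
    cases h1 : Nat.testBit a q
    · rfl
    · rw [h q h1]; rfl

theorem colB_true (S : ℕ → ℕ) (J : ℕ) : ∀ (n p : ℕ) (Ms : List ℕ) (g : ℕ → ℕ),
    colB S J n p Ms = true →
    (∀ q, q < p → Nat.testBit J q = false →
      g q < Ms.length ∧ Nat.testBit (Ms.getD (g q) 0) q = true) →
    (∀ q, q < p → Nat.testBit J q = false → ∀ r, r < q → Nat.testBit J r = false →
      g q = g r → Nat.testBit (S q) r = false) →
    ∃ g' : ℕ → ℕ, (∀ q, q < p + n → Nat.testBit J q = false → g' q < Ms.length) ∧
      (∀ q, q < p + n → Nat.testBit J q = false → ∀ r, r < q → Nat.testBit J r = false →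
        g' q = g' r → Nat.testBit (S q) r = false) := by
  intro n
  induction n with
  | zero =>
    intro p Ms g _ h1 h2
    exact ⟨g, fun q hq hJ => (h1 q hq hJ).1, h2⟩
  | succ n ih =>
    intro p Ms g hc h1 h2
    unfold colB at hc
    by_cases hJ : Nat.testBit J p = true
    · rw [if_pos hJ] at hc
      have := ih (p + 1) Ms g hc ?_ ?_
      · rw [show p + (n + 1) = p + 1 + n by ring]
        exact this
      · intro q hq hJq
        rcases Nat.lt_succ_iff_lt_or_eq.1 hq with h | h
        · exact h1 q h hJq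
        · subst h; rw [hJ] at hJq; cases hJq
      · intro q hq hJq
        rcases Nat.lt_succ_iff_lt_or_eq.1 hq with h | h
        · exact h2 q h hJq
        · subst h; rw [hJ] at hJq; cases hJq
    · rw [if_neg hJ, List.any_eq_true] at hc
      obtain ⟨j, hj, hc⟩ := hc
      rw [List.mem_range] at hj
      rw [Bool.and_eq_true, beq_true] at hc
      obtain ⟨hz, hc⟩ := hc
      have hz' := land_eq_zero.1 hz
      have := ih (p + 1) _ (Function.update g p j) hc ?_ ?_
      · rw [show p + (n + 1) = p + 1 + n by ring]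
        simpa using this
      · intro q hq hJq
        rw [List.length_set]
        by_cases hqp : q = p
        · subst hqp
          rw [Function.update_self]
          refine ⟨hj, ?_⟩
          rw [List.getD_eq_getElem _ _ (by simpa using hj), List.getElem_set_self, testBit_lor,
            testBit_bit]
          simp
        · rw [Function.update_of_ne hqp]
          obtain ⟨h3, h4⟩ := h1 q (by omega) hJq
          refine ⟨h3, ?_⟩
          rw [List.getD_eq_getElem _ _ (by simpa using h3), List.getElem_set]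
          split_ifs with h5
          · rw [testBit_lor, h5, h4]; rfl
          · rw [← List.getD_eq_getElem _ 0 h3]; exact h4
      · intro q hq hJq r hr hJr hgr
        by_cases hqp : q = p
        · subst hqp
          rw [Function.update_self, Function.update_of_ne (by omega)] at hgr
          obtain ⟨h3, h4⟩ := h1 r hr hJr
          rw [← hgr] at h4
          by_contra h5
          rw [Bool.not_eq_false] at h5
          rw [hz' r h5] at h4
          cases h4
        · rw [Function.update_of_ne hqp, Function.update_of_ne (by omega)] at hgr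
          exact h2 q (by omega) hJq r hr hJr hgr

theorem colB_complete (S : ℕ → ℕ) (k : ℕ) (f : ℕ → ℕ)
    (hp : ∀ q, q < k → ∀ r, r < q → f q = f r → Nat.testBit (S q) r = false) :
    ∀ (n p : ℕ) (Ms : List ℕ), p + n = k → (∀ q, q < k → f q < Ms.length) →
    (∀ j q, Nat.testBit (Ms.getD j 0) q = true → q < p ∧ f q = j) →
    colB S 0 n p Ms = true := by
  intro n
  induction n with
  | zero => intros; rfl
  | succ n ih =>
    intro p Ms hk hf hM
    unfold colB
    rw [if_neg (by simp), List.any_eq_true]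
    have hfp := hf p (by omega)
    refine ⟨f p, by rw [List.mem_range]; exact hfp, ?_⟩
    rw [Bool.and_eq_true, beq_true, land_eq_zero]
    constructor
    · intro q hq
      by_contra h
      rw [Bool.not_eq_false] at h
      obtain ⟨h1, h2⟩ := hM _ _ h
      rw [hp p (by omega) q h1 h2.symm] at hq
      cases hq
    · apply ih (p + 1) _ (by omega)
      · intro q hq
        rw [List.length_set]
        exact hf q hq
      · intro j q hq
        by_cases hj : f p = j
        · subst hj
          rw [List.getD_eq_getElem _ _ (by simpa using hfp), List.getElem_set_self, testBit_lor,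
            testBit_bit, Bool.or_eq_true, decide_eq_true_eq] at hq
          rcases hq with hq | hq
          · have := hM _ _ hq
            exact ⟨by omega, this.2⟩
          · subst hq
            exact ⟨by omega, rfl⟩
        · have : (Ms.set (f p) ((Ms.getD (f p) 0).lor (bit p))).getD j 0 = Ms.getD j 0 := by
            simp only [List.getD_eq_getElem?_getD, List.getElem?_set_ne hj]
          rw [this] at hq
          have := hM _ _ hq
          exact ⟨by omega, this.2⟩

theorem enumB_sound (S : ℕ → ℕ) (R : ℕ) (f : ℕ → Bool) (T : ℕ)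
    (hTR : ∀ q, Nat.testBit T q = true → Nat.testBit R q = true)
    (hT : ∀ q, Nat.testBit T q = true → ∀ r, r < q → Nat.testBit T r = true →
      Nat.testBit (S q) r = false)
    (hl : ∀ q, Nat.testBit R q = true → (∀ r, r < q → Nat.testBit T r = false) →
      Nat.testBit T q = true) :
    ∀ (n p X : ℕ), enumB S R f n p X = true →
      (∀ q, Nat.testBit X q = (Nat.testBit T q && decide (q < p))) →
      (∀ q, Nat.testBit T q = true → q < p + n) → f T = true := by
  intro n
  induction n with
  | zero =>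
    intro p X h hX hTn
    have : X = T := by
      apply Nat.eq_of_testBit_eq
      intro q
      rw [hX q]
      cases h1 : Nat.testBit T q
      · rfl
      · have := hTn q h1
        simp; omega
    rw [← this]
    exact h
  | succ n ih =>
    intro p X h hX hTn
    have key0 : Nat.testBit T p = false →
        ∀ q, Nat.testBit X q = (Nat.testBit T q && decide (q < p + 1)) := by
      intro hp q
      rw [hX q]
      by_cases hqp : q = p
      · subst hqp; simp [hp]
      · congr 1
        apply decide_eq_decide.2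
        omega
    have key1 : Nat.testBit T p = true →
        ∀ q, Nat.testBit (Nat.lor X (bit p)) q = (Nat.testBit T q && decide (q < p + 1)) := by
      intro hp q
      rw [testBit_lor, testBit_bit, hX q]
      by_cases hqp : q = p
      · subst hqp; simp [hp]
      · have h1 : decide (p = q) = false := by simp; omega
        rw [h1, Bool.or_false]
        congr 1
        apply decide_eq_decide.2
        omega
    have hTn' : ∀ q, Nat.testBit T q = true → q < p + 1 + n := by
      intro q hq
      have := hTn q hq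
      omega
    unfold enumB at h
    by_cases hp : Nat.testBit T p = true
    · have h1 : Nat.testBit R p = true := hTR p hp
      have h2 : Nat.beq (Nat.land (S p) X) 0 = true := by
        rw [beq_true, land_eq_zero]
        intro r hr
        rw [hX r]
        by_contra h3
        rw [Bool.not_eq_false, Bool.and_eq_true, decide_eq_true_eq] at h3
        rw [hT p hp r h3.2 h3.1] at hr
        cases hr
      rw [h1, h2] at h
      simp only [Bool.and_self, if_true, Bool.and_eq_true] at h
      exact ih (p + 1) _ h.1 (key1 hp) hTn'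
    · rw [Bool.not_eq_true] at hp
      split_ifs at h with h1
      · rw [Bool.and_eq_true, Bool.or_eq_true, beq_true] at h
        rcases h.2 with h2 | h2
        · exfalso
          rw [Bool.and_eq_true] at h1
          have := hl p h1.1 ?_
          · rw [hp] at this; cases this
          · intro r hr
            have h3 := hX r
            rw [h2, Nat.zero_testBit] at h3
            simpa [hr] using h3.symm
        · exact ih (p + 1) _ h2 (key0 hp) hTn'
      · exact ih (p + 1) _ h (key0 hp) hTn'

theorem exists_mask (k : ℕ) (p : ℕ → Prop) : ∃ T : ℕ, ∀ q, Nat.testBit T q = true ↔ (q < k ∧ p q) := by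
  classical
  induction k with
  | zero => exact ⟨0, fun q => by simp⟩
  | succ k ih =>
    obtain ⟨T, hT⟩ := ih
    by_cases hk : p k
    · refine ⟨Nat.lor T (bit k), fun q => ?_⟩
      rw [testBit_lor, testBit_bit, Bool.or_eq_true, decide_eq_true_eq, hT q]
      constructor
      · rintro (⟨h1, h2⟩ | rfl)
        · exact ⟨by omega, h2⟩
        · exact ⟨by omega, hk⟩
      · rintro ⟨h1, h2⟩
        by_cases h : k = q
        · exact Or.inr h
        · exact Or.inl ⟨by omega, h2⟩
    · refine ⟨T, fun q => ?_⟩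
      rw [hT q]
      constructor
      · rintro ⟨h1, h2⟩
        exact ⟨by omega, h2⟩
      · rintro ⟨h1, h2⟩
        by_cases h : k = q
        · subst h; exact absurd h2 hk
        · exact ⟨by omega, h2⟩

theorem partB_sound (S : ℕ → ℕ) (k : ℕ) (GM : List ℕ) (hGM : GM ≠ []) (g : ℕ → ℕ) :
    ∀ (m R : ℕ) (P : Finset ℕ), P.card = m → partB S k GM m R = true →
      (∀ q, Nat.testBit R q = true → q < k ∧ g q ∈ P) →
      (∀ q, Nat.testBit R q = true → ∀ r, r < q → Nat.testBit R r = true → g q = g r →
        Nat.testBit (S q) r = false) →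
      ∃ x ∈ P, ∃ I ∈ GM, ∀ q, Nat.testBit R q = true → g q = x → Nat.testBit I q = true := by
  classical
  intro m
  induction m with
  | zero =>
    intro R P hP hB hR _
    exfalso
    unfold partB at hB
    rw [Bool.not_eq_true', beq_false] at hB
    obtain ⟨q, hq⟩ := Nat.exists_testBit_of_ne_zero hB
    have := (hR q hq).2
    rw [Finset.card_eq_zero.1 hP] at this
    exact absurd this (Finset.notMem_empty _)
  | succ m ih =>
    intro R P hP hB hR hprop
    unfold partB at hB
    rw [Bool.or_eq_true, beq_true] at hB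
    by_cases hR0 : R = 0
    · obtain ⟨x, hx⟩ := Finset.card_pos.1 (show 0 < P.card by omega)
      obtain ⟨I, hI⟩ := List.exists_mem_of_ne_nil _ hGM
      refine ⟨x, hx, I, hI, ?_⟩
      intro q hq
      rw [hR0] at hq
      simp at hq
    · have hB := hB.resolve_left hR0
      have hex : ∃ q, Nat.testBit R q = true := Nat.exists_testBit_of_ne_zero hR0
      set p0 := Nat.find hex with hp0
      have hp0R : Nat.testBit R p0 = true := Nat.find_spec hex
      obtain ⟨T, hT⟩ := exists_mask k (fun q => Nat.testBit R q = true ∧ g q = g p0)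
      have hfT := enumB_sound S R _ T (fun q hq => ((hT q).1 hq).2.1)
        (fun q hq r hr hr' => hprop q ((hT q).1 hq).2.1 r hr ((hT r).1 hr').2.1
          (by rw [((hT q).1 hq).2.2, ((hT r).1 hr').2.2]))
        (fun q hq hr => by
          have h1 : p0 ≤ q := Nat.find_min' hex hq
          have h2 : Nat.testBit T p0 = true := (hT p0).2 ⟨(hR p0 hp0R).1, hp0R, rfl⟩
          rcases Nat.lt_or_eq_of_le h1 with h3 | h3
          · rw [hr p0 h3] at h2; cases h2
          · rw [← h3]; exact h2)
        k 0 0 hB (fun q => by simp) (fun q hq => by have := ((hT q).1 hq).1; omega)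
      rw [Bool.or_eq_true, List.any_eq_true] at hfT
      rcases hfT with ⟨I, hI, hTI⟩ | hfT
      · refine ⟨g p0, (hR p0 hp0R).2, I, hI, ?_⟩
        intro q hq hgq
        rw [beq_true] at hTI
        have h2 : Nat.testBit T q = true := (hT q).2 ⟨(hR q hq).1, hq, hgq⟩
        rw [← hTI, testBit_land, Bool.and_eq_true] at h2
        exact h2.2
      · have hxor : ∀ q, Nat.testBit (Nat.xor R T) q = true ↔
            (Nat.testBit R q = true ∧ g q ≠ g p0) := by
          intro q
          have : Nat.testBit (Nat.xor R T) q = (Nat.testBit R q ^^ Nat.testBit T q) :=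
            Nat.testBit_xor R T q
          rw [this]
          have h3 := hT q
          constructor
          · intro h4
            cases h5 : Nat.testBit R q
            · rw [h5] at h3 h4
              simp at h3 h4
              rw [h4] at h3
              cases h3
            · rw [h5] at h3 h4
              refine ⟨rfl, ?_⟩
              intro h6
              rw [h3.2 ⟨(hR q h5).1, rfl, h6⟩] at h4
              cases h4
          · rintro ⟨h5, h6⟩
            rw [h5] at h3 ⊢
            have : Nat.testBit T q = false := by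
              by_contra h7
              rw [Bool.not_eq_false] at h7
              exact h6 (h3.1 h7).2.2
            rw [this]; rfl
        obtain ⟨y, hy, I, hI, hy'⟩ := ih (Nat.xor R T) (P.erase (g p0))
          (by rw [Finset.card_erase_of_mem (hR p0 hp0R).2, hP]; rfl) hfT
          (fun q hq => by
            obtain ⟨h1, h2⟩ := (hxor q).1 hq
            exact ⟨(hR q h1).1, Finset.mem_erase.2 ⟨h2, (hR q h1).2⟩⟩)
          (fun q hq r hr hr' h => hprop q ((hxor q).1 hq).1 r hr ((hxor r).1 hr').1 h)
        refine ⟨y, Finset.mem_of_mem_erase hy, I, hI, ?_⟩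
        intro q hq hgq
        exact hy' q ((hxor q).2 ⟨hq, by rw [hgq]; exact (Finset.mem_erase.1 hy).1⟩) hgq

end Masks

section Leaves

variable {V : Type} {G : SimpleGraph V} {W I : Finset V}

/-- No comparable pair of nonadjacent vertices. -/
def Prime (G : SimpleGraph V) (W : Finset V) : Prop :=
  ∀ u ∈ W, ∀ v ∈ W, u ≠ v → ¬ G.Adj u v → ∃ x ∈ W, G.Adj u x ∧ ¬ G.Adj v x

def ProperOn (G : SimpleGraph V) (W : Finset V) (P : Finset ℕ) (c : V → ℕ) : Prop :=
  (∀ v ∈ W, c v ∈ P) ∧ ∀ u ∈ W, ∀ v ∈ W, G.Adj u v → c u ≠ c v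

def ColOn (G : SimpleGraph V) (W : Finset V) (m : ℕ) : Prop :=
  ∃ f : V → ℕ, ProperOn G W (Finset.range m) f

theorem Inv.self {φ : ℕ → V} {k : ℕ} {S : ℕ → ℕ} (hk : k ≤ 16) (hI : Inv G W I φ k S)
    {p q : ℕ} (hp : p < k) (hq : q < k) : adj S p q = true ↔ G.Adj (φ p) (φ q) := by
  by_cases h : p = q
  · subst h
    constructor
    · intro h1
      unfold adj at h1
      rw [if_neg (lt_irrefl _), hI.real p hp p (by omega)] at h1
      rcases h1 with h1 | h1
      · omega
      · omega
    · intro h1
      exact absurd h1 (G.loopless.irrefl _)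
  · exact hI.adj_iff hk hp hq h

theorem leaf0_sound {φ : ℕ → V} {k : ℕ} {S : ℕ → ℕ} {L : List ℕ} (hk : k ≤ 16)
    (hI : Inv G W I φ k S) (hC : Cover G W I φ k L) (hP : Prime G W) (u v : ℕ)
    (h : leaf0 u v S k L = true) : False := by
  unfold leaf0 at h
  simp only [Bool.and_eq_true, decide_eq_true_eq, Bool.not_eq_true', List.all_eq_true,
    List.mem_range] at h
  obtain ⟨⟨⟨⟨⟨hu, hv⟩, huv⟩, hna⟩, h1⟩, h2⟩ := h
  have huv := beq_false.1 huv
  obtain ⟨x, hx, hux, hvx⟩ := hP (φ u) (hI.mem u hu) (φ v) (hI.mem v hv) (hI.ne hu hv huv)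
    (by rw [← hI.adj_iff hk hu hv huv, hna]; simp)
  by_cases hex : ∃ p, p < k ∧ φ p = x
  · obtain ⟨p, hp, rfl⟩ := hex
    have h3 := h1 p hp
    rw [(hI.self hk hp hu).2 hux.symm] at h3
    have h4 : adj S p v = false := by
      rw [← Bool.not_eq_true, hI.self hk hp hv]
      exact fun h => hvx h.symm
    rw [h4] at h3
    simp at h3
  · push Not at hex
    obtain ⟨d, hd, hr⟩ := hC x hx hex
    have h3 := h2 d hd
    rw [(real_adj hk hr hu).2 hux.symm] at h3
    have h4 : Nat.testBit d v = false := by
      rw [← Bool.not_eq_true, real_adj hk hr hv]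
      exact fun h => hvx h.symm
    rw [h4] at h3
    simp at h3

theorem leaf1_sound {φ : ℕ → V} {k : ℕ} {S : ℕ → ℕ} {L : List ℕ} (hk : k ≤ 16)
    (hI : Inv G W I φ k S) (hC : Cover G W I φ k L) (hIW : I ⊆ W)
    (hdom : ∀ u ∈ W, u ∉ I → ∃ x ∈ I, G.Adj u x) (u : ℕ)
    (h : leaf1 u S k L = true) : False := by
  unfold leaf1 at h
  simp only [Bool.and_eq_true, decide_eq_true_eq, Bool.not_eq_true', List.all_eq_true,
    List.mem_range] at h
  obtain ⟨⟨⟨hu, huI⟩, h1⟩, h2⟩ := h
  have huI' : φ u ∉ I := by
    rw [← hI.lab hk hu, huI]; simp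
  obtain ⟨x, hxI, hux⟩ := hdom (φ u) (hI.mem u hu) huI'
  have hx := hIW hxI
  by_cases hex : ∃ p, p < k ∧ φ p = x
  · obtain ⟨p, hp, rfl⟩ := hex
    have h3 := h1 p hp
    rw [(hI.self hk hp hu).2 hux.symm, (hI.lab hk hp).2 hxI] at h3
    simp at h3
  · push Not at hex
    obtain ⟨d, hd, hr⟩ := hC x hx hex
    have h3 := h2 d hd
    rw [(real_adj hk hr hu).2 hux.symm, (real_lab hk hr).2 hxI] at h3
    simp at h3

theorem exists_index {φ : ℕ → V} {k : ℕ} {L : List ℕ}
    (hC : Cover G W I φ k L) (hL : L.isEmpty = true) {x : V} (hx : x ∈ W) :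
    ∃ p, p < k ∧ φ p = x := by
  by_contra h
  push Not at h
  obtain ⟨d, hd, _⟩ := hC x hx h
  rw [List.isEmpty_iff] at hL
  rw [hL] at hd
  simp at hd

/-- colouring of the complement of a mask -/
theorem colOn_of_colB {φ : ℕ → V} {k : ℕ} {S : ℕ → ℕ} {L : List ℕ} (hk : k ≤ 16)
    (hI : Inv G W I φ k S) (hC : Cover G W I φ k L) (hL : L.isEmpty = true) (J c : ℕ)
    (h : colB S J k 0 (List.replicate c 0) = true) (U : Finset V) (hU : U ⊆ W)
    (hJ : ∀ p, p < k → φ p ∈ U → Nat.testBit J p = false) : ColOn G U c := by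
  classical
  obtain ⟨g, hg1, hg2⟩ := colB_true S J k 0 _ (fun _ => 0) h (fun q hq => by omega)
    (fun q hq => by omega)
  have hidx : ∀ x : V, ∃ p, x ∈ U → (p < k ∧ φ p = x) := by
    intro x
    by_cases hx : x ∈ U
    · obtain ⟨p, hp⟩ := exists_index hC hL (hU hx)
      exact ⟨p, fun _ => hp⟩
    · exact ⟨0, fun h => absurd h hx⟩
  choose ι hι using hidx
  refine ⟨fun x => g (ι x), ?_, ?_⟩
  · intro x hx
    obtain ⟨h1, h2⟩ := hι x hx
    have := hg1 (ι x) (by omega) (hJ _ h1 (by rw [h2]; exact hx))
    rw [List.length_replicate] at this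
    exact Finset.mem_range.2 this
  · have key : ∀ x ∈ U, ∀ y ∈ U, ι y < ι x → G.Adj x y → g (ι x) ≠ g (ι y) := by
      intro x hx y hy hlt hxy hg
      obtain ⟨h1, h2⟩ := hι x hx
      obtain ⟨h3, h4⟩ := hι y hy
      have := hg2 (ι x) (by omega) (hJ _ h1 (by rw [h2]; exact hx)) (ι y) hlt
        (hJ _ h3 (by rw [h4]; exact hy)) hg
      have h5 := (hI.real (ι x) h1 (ι y) (by omega)).2 (Or.inl ⟨hlt, by rw [h2, h4]; exact hxy⟩)
      rw [this] at h5
      cases h5
    intro x hx y hy hxy hg
    rcases Nat.lt_trichotomy (ι x) (ι y) with h | h | h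
    · exact key y hy x hx h hxy.symm hg.symm
    · have h1 := (hι x hx).2
      have h2 := (hι y hy).2
      rw [h] at h1
      exact G.ne_of_adj hxy (h1.symm.trans h2)
    · exact key x hx y hy h hxy hg

theorem colB_of_colOn {φ : ℕ → V} {k : ℕ} {S : ℕ → ℕ} (hk : k ≤ 16)
    (hI : Inv G W I φ k S) (c : ℕ) (h : ColOn G W c) :
    colB S 0 k 0 (List.replicate c 0) = true := by
  obtain ⟨f, hf1, hf2⟩ := h
  refine colB_complete S k (fun q => f (φ q)) ?_ k 0 _ (by omega) ?_ ?_
  · intro q hq r hr hfqr
    rw [← Bool.not_eq_true, hI.real q hq r (by omega)]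
    rintro (⟨_, h1⟩ | ⟨h1, _⟩)
    · exact hf2 _ (hI.mem q hq) _ (hI.mem r (by omega)) h1 hfqr
    · omega
  · intro q hq
    rw [List.length_replicate]
    exact Finset.mem_range.1 (hf1 _ (hI.mem q hq))
  · intro j q hq
    exfalso
    have : (List.replicate c 0).getD j 0 = 0 := by
      rw [List.getD_eq_getElem?_getD, List.getElem?_replicate]
      split_ifs <;> rfl
    rw [this] at hq
    simp at hq

/-- The copy of the graph coded by `Q`. -/
def Emb (G : SimpleGraph V) (Q : List ℕ) (ψ : ℕ → V) (U : Finset V) : Prop :=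
  ∀ a, a < Q.length → ψ a ∈ U ∧ ∀ b, b < a → ψ b ≠ ψ a ∧
    (Nat.testBit (Q.getD a 0) b = true ↔ G.Adj (ψ a) (ψ b))

theorem phase1 (c : ℕ) (Qs : List (List ℕ)) (C : Cert)
    (hrun : run (leafP1 c Qs) C [(0, [])] (fun _ => 0) 0 [0] = true)
    (H : Hyp G ∅) (hP : Prime G W) (hW : W.Nonempty) (hcol : ¬ ColOn G W c) :
    ∃ i, i < Qs.length ∧ ∃ ψ, Emb G (Qs.getD i []) ψ W := by
  obtain ⟨x0, hx0⟩ := hW
  refine run_sound (W := W) H _ (leafP1 c Qs) ?_ C [(0, [])] (fun _ => x0) (fun _ => 0) 0 [0]
    (by omega) ⟨fun p hp => by omega, fun p hp => by omega, fun p hp => by omega⟩ ?_ ?_ hrun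
  · intro n ps φ S k L hk hI hC hleaf
    unfold leafP1 at hleaf
    split_ifs at hleaf with h1 h2
    · exact (leaf0_sound hk hI hC hP _ _ hleaf).elim
    · rw [Bool.and_eq_true, decide_eq_true_eq] at hleaf
      obtain ⟨h3, h4⟩ := hleaf
      refine ⟨_, h3, fun i => φ (ps.tail.getD i 0), ?_⟩
      unfold embB at h4
      simp only [List.all_eq_true, List.mem_range, Bool.and_eq_true, decide_eq_true_eq,
        Bool.not_eq_true', beq_iff_eq] at h4
      intro a ha
      obtain ⟨h5, h6⟩ := h4 a ha
      refine ⟨hI.mem _ h5, ?_⟩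
      intro b hb
      obtain ⟨h7, h8⟩ := h6 b hb
      have h9 := (h4 b (by omega)).1
      refine ⟨(hI.ne h5 h9 (beq_false.1 h7)).symm, ?_⟩
      rw [h8]
      exact hI.adj_iff hk h5 h9 (beq_false.1 h7)
    · rw [Bool.and_eq_true] at hleaf
      exact (hcol (colOn_of_colB hk hI hC hleaf.1 0 c hleaf.2 W (Finset.Subset.refl _)
        (fun p _ _ => by simp))).elim
  · intro x _ _
    refine ⟨0, by simp, ?_⟩
    intro n hn
    simp
  · intro i hi
    simp only [List.length_singleton, Nat.lt_one_iff] at hi
    subst hi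
    refine ⟨hx0, fun p hp => by omega, ?_⟩
    intro n hn
    simp

/-- a maximal independent subset `M` of `W` with `(c-1)`-colourable complement -/
structure GoodMIS (G : SimpleGraph V) (W : Finset V) (c : ℕ) (M : Finset V) : Prop where
  sub : M ⊆ W
  ind : ∀ x ∈ M, ∀ y ∈ M, ¬ G.Adj x y
  col : ∀ U : Finset V, (∀ x, x ∈ U ↔ x ∈ W ∧ x ∉ M) → ColOn G U c

theorem goodMIS_sound {φ : ℕ → V} {k : ℕ} {S : ℕ → ℕ} {L : List ℕ} (hk : k ≤ 16)
    (hI : Inv G W I φ k S) (hC : Cover G W I φ k L) (hL : L.isEmpty = true) (c J : ℕ)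
    (h : goodMIS S k c J = true) :
    ∃ M : Finset V, GoodMIS G W c M ∧ ∀ q, q < k → Nat.testBit J q = true → φ q ∈ M := by
  classical
  unfold goodMIS at h
  simp only [Bool.and_eq_true, List.all_eq_true, List.mem_range, Bool.or_eq_true,
    Bool.not_eq_true', beq_true] at h
  obtain ⟨⟨h1, h2⟩, h3⟩ := h
  refine ⟨W.filter (fun x => ∃ q, q < k ∧ Nat.testBit J q = true ∧ φ q = x),
    ⟨Finset.filter_subset _ _, ?_, ?_⟩, ?_⟩
  · have key : ∀ p q, p < k → q < p → Nat.testBit J p = true → Nat.testBit J q = true →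
        ¬ G.Adj (φ p) (φ q) := by
      intro p q hp hq hJp hJq hadj
      rcases h1 p hp with h4 | h4
      · rw [hJp] at h4; cases h4
      · have h5 := (hI.real p hp q (by omega)).2 (Or.inl ⟨hq, hadj⟩)
        rw [land_eq_zero.1 h4 q h5] at hJq
        cases hJq
    intro x hx y hy hxy
    obtain ⟨_, p, hp, hJp, rfl⟩ := Finset.mem_filter.1 hx
    obtain ⟨_, q, hq, hJq, rfl⟩ := Finset.mem_filter.1 hy
    rcases Nat.lt_trichotomy p q with h | h | h
    · exact key q p hq h hJq hJp hxy.symm
    · subst h; exact G.loopless.irrefl _ hxy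
    · exact key p q hp h hJp hJq hxy
  · intro U hU
    refine colOn_of_colB hk hI hC hL J c h3 U (fun x hx => ((hU x).1 hx).1) ?_
    intro p hp hpU
    by_contra h4
    rw [Bool.not_eq_false] at h4
    obtain ⟨h5, h6⟩ := (hU _).1 hpU
    exact h6 (Finset.mem_filter.2 ⟨h5, p, hp, h4, rfl⟩)
  · intro q hq hJq
    exact Finset.mem_filter.2 ⟨hI.mem q hq, q, hq, hJq, rfl⟩

theorem phase2 (c : ℕ) (Q : List ℕ) (init : List (ℕ × List ℕ)) (C : Cert)
    (hrun : run (leafP2 c) C init (fun _ => 0) 0 [0, 65536] = true)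
    (hlen : init.length = Q.length)
    (hQ : ∀ i, i < Q.length → (init.getD i (0, [])).1 = Q.getD i 0 ∧ Q.getD i 0 < 2 ^ i)
    (H : Hyp G I) (hIW : I ⊆ W) (hP : Prime G W)
    (hdom : ∀ u ∈ W, u ∉ I → ∃ x ∈ I, G.Adj u x) (hcol : ColOn G W c)
    (ψ : ℕ → V) (U : Finset V) (hU : ∀ x ∈ U, x ∈ W ∧ x ∉ I) (hψ : Emb G Q ψ U)
    (P : Finset ℕ) (hPc : P.card = c + 1) (d : V → ℕ) (hd : ProperOn G W P d)
    (hbad : ∀ x ∈ P, ∀ M : Finset V, GoodMIS G W (c - 1) M → ¬ ∀ w ∈ W, d w = x → w ∈ M) :
    False := by
  refine run_sound (W := W) H _ (leafP2 c) ?_ C init ψ (fun _ => 0) 0 [0, 65536]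
    (by omega) ⟨fun p hp => by omega, fun p hp => by omega, fun p hp => by omega⟩ ?_ ?_ hrun
  · intro n ps φ S k L hk hI hC hleaf
    unfold leafP2 at hleaf
    split_ifs at hleaf with h1 h2 h3
    · exact leaf0_sound hk hI hC hP _ _ hleaf
    · exact leaf1_sound hk hI hC hIW hdom _ hleaf
    · rw [colB_of_colOn hk hI c hcol] at hleaf
      cases hleaf
    · simp only [Bool.and_eq_true, List.all_eq_true, Bool.not_eq_true'] at hleaf
      obtain ⟨⟨⟨hL, hne⟩, hgood⟩, hpart⟩ := hleaf
      have hne' : ps ≠ [] := by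
        rintro rfl
        simp at hne
      obtain ⟨x, hx, J, hJ, hJx⟩ := partB_sound S k ps hne' (fun q => d (φ q)) (c + 1)
        (2 ^ k - 1) P hPc hpart
        (fun q hq => by
          rw [Nat.testBit_two_pow_sub_one, decide_eq_true_eq] at hq
          exact ⟨hq, hd.1 _ (hI.mem q hq)⟩)
        (fun q hq r hr _ hqr => by
          rw [Nat.testBit_two_pow_sub_one, decide_eq_true_eq] at hq
          rw [← Bool.not_eq_true, hI.real q hq r (by omega)]
          rintro (⟨_, h4⟩ | ⟨h4, _⟩)
          · exact hd.2 _ (hI.mem q hq) _ (hI.mem r (by omega)) h4 hqr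
          · omega)
      obtain ⟨M, hM, hM2⟩ := goodMIS_sound hk hI hC hL (c - 1) J (hgood J hJ)
      refine hbad x hx M hM ?_
      intro w hw hdw
      obtain ⟨p, hp, rfl⟩ := exists_index hC hL hw
      exact hM2 p hp (hJx p (by rw [Nat.testBit_two_pow_sub_one, decide_eq_true_eq]; exact hp) hdw)
  · intro x _ _
    by_cases hxI : x ∈ I
    · refine ⟨65536, by simp, ?_⟩
      intro n hn
      rw [show (65536 : ℕ) = 2 ^ 16 by norm_num, Nat.testBit_two_pow, decide_eq_true_eq]
      constructor
      · intro h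
        exact Or.inr ⟨h.symm, hxI⟩
      · rintro (⟨h, _⟩ | ⟨h, _⟩)
        · omega
        · exact h.symm
    · refine ⟨0, by simp, ?_⟩
      intro n hn
      simp [hxI]
  · intro i hi
    rw [hlen] at hi
    rw [Nat.zero_add]
    obtain ⟨h1, h2⟩ := hψ i hi
    obtain ⟨h3, h4⟩ := hQ i hi
    refine ⟨(hU _ h1).1, fun p hp => (h2 p hp).1, ?_⟩
    rw [h3]
    intro n hn
    constructor
    · intro h5
      left
      have hni : n < i := by
        by_contra h6
        have := Nat.testBit_lt_two_pow (lt_of_lt_of_le h4 (Nat.pow_le_pow_right (by omega)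
          (not_lt.1 h6)))
        rw [this] at h5
        cases h5
      exact ⟨hni, (h2 n hni).2.1 h5⟩
    · rintro (⟨h5, h6⟩ | ⟨_, h6⟩)
      · exact (h2 n h5).2.2 h6
      · exact absurd h6 (hU _ h1).2

end Leaves

end Pool.Agent.H125R3.Mixing
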