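import Pool.Agent.H125R3.MixDefs

set_option autoImplicit false
set_option maxRecDepth 100000

namespace Pool.Agent.H125R3.Mixing

def Qs3 : List (List Nat) := [[0, 1, 3], [0, 1, 2, 4, 9]]

def Qs4 : List (List Nat) := [[0, 1, 1, 2, 12, 31], [0, 1, 3, 3, 5, 26, 60], [0, 1, 1, 1, 6, 26, 60], [0, 1, 1, 5, 6, 26, 60], [0, 1, 3, 3, 5, 1, 58, 60, 178, 364], [0, 1, 3, 3, 5, 1, 1, 122, 124, 114, 620, 1330, 2764]]

def Qs2 : List (List Nat) := [[0, 1]]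

end Pool.Agent.H125R3.Mixing
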