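import Pool.Agent.H125R3.MixComb
import Pool.Agent.H125R3.MixQs
import Pool.Agent.H125R3.MixC1_3
import Pool.Agent.H125R3.MixC1_4
import Pool.Agent.H125R3.MixC2_2_0
import Pool.Agent.H125R3.MixC2_3_0
import Pool.Agent.H125R3.MixC2_3_1
import Pool.Agent.H125R3.MixC2_4_0
import Pool.Agent.H125R3.MixC2_4_1
import Pool.Agent.H125R3.MixC2_4_2
import Pool.Agent.H125R3.MixC2_4_3
import Pool.Agent.H125R3.MixC2_4_4
import Pool.Agent.H125R3.MixC2_4_5

set_option autoImplicit false

namespace Pool.Agent.H125R3.Mixing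

open SimpleGraph Relation

variable {V : Type} {G : SimpleGraph V}

theorem colOn_mono {W U : Finset V} {m : ℕ} (h : ColOn G W m) (hU : U ⊆ W) : ColOn G U m := by
  obtain ⟨f, h1, h2⟩ := h
  exact ⟨f, fun v hv => h1 v (hU hv), fun u hu v hv => h2 u (hU hu) v (hU hv)⟩

theorem colOn_extend [DecidableEq V] {W : Finset V} {m : ℕ} {u v : V} (hv : v ∈ W)
    (huv : u ≠ v) (hna : ¬ G.Adj u v) (hN : ∀ w ∈ W, G.Adj u w → G.Adj v w)
    (h : ColOn G (W.erase u) m) : ColOn G W m := by
  obtain ⟨f, h1, h2⟩ := h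
  have hvE : v ∈ W.erase u := Finset.mem_erase.2 ⟨huv.symm, hv⟩
  refine ⟨Function.update f u (f v), ?_, ?_⟩
  · intro w hw
    by_cases hwu : w = u
    · subst hwu; rw [Function.update_self]; exact h1 v hvE
    · rw [Function.update_of_ne hwu]
      exact h1 w (Finset.mem_erase.2 ⟨hwu, hw⟩)
  · intro w hw w' hw' hadj
    by_cases hwu : w = u
    · subst hwu
      have hne : w' ≠ w := hadj.symm.ne
      rw [Function.update_self, Function.update_of_ne hne]
      exact h2 v hvE w' (Finset.mem_erase.2 ⟨hne, hw'⟩) (hN w' hw' hadj)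
    · by_cases hwu' : w' = u
      · subst hwu'
        rw [Function.update_self, Function.update_of_ne hwu]
        exact h2 w (Finset.mem_erase.2 ⟨hwu, hw⟩) v hvE (hN w hw hadj.symm).symm
      · rw [Function.update_of_ne hwu, Function.update_of_ne hwu']
        exact h2 w (Finset.mem_erase.2 ⟨hwu, hw⟩) w' (Finset.mem_erase.2 ⟨hwu', hw'⟩) hadj

theorem not_prime {W : Finset V} (h : ¬ Prime G W) : ∃ u ∈ W, ∃ v ∈ W, u ≠ v ∧ ¬ G.Adj u v ∧
    ∀ w ∈ W, G.Adj u w → G.Adj v w := by
  unfold Prime at h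
  push Not at h
  obtain ⟨u, hu, v, hv, h1, h2, h3⟩ := h
  exact ⟨u, hu, v, hv, h1, h2, h3⟩

theorem exists_critical [DecidableEq V] (m : ℕ) : ∀ (n : ℕ) (W : Finset V), W.card = n →
    ¬ ColOn G W m → ∃ T ⊆ W, T.Nonempty ∧ Prime G T ∧ ¬ ColOn G T m := by
  intro n
  induction n with
  | zero =>
    intro W hW hcol
    rw [Finset.card_eq_zero] at hW
    subst hW
    exact absurd ⟨fun _ => 0, fun v hv => absurd hv (Finset.notMem_empty _),
      fun u hu => absurd hu (Finset.notMem_empty _)⟩ hcol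
  | succ n ih =>
    intro W hW hcol
    by_cases hP : Prime G W
    · exact ⟨W, Finset.Subset.refl _, Finset.card_pos.1 (by omega), hP, hcol⟩
    · obtain ⟨u, hu, v, hv, huv, hna, hN⟩ := not_prime hP
      obtain ⟨T, hT, h⟩ := ih (W.erase u) (by rw [Finset.card_erase_of_mem hu]; omega)
        (fun h => hcol (colOn_extend hv huv hna hN h))
      exact ⟨T, hT.trans (Finset.erase_subset _ _), h⟩

theorem exists_maximal_ind [DecidableEq V] {W X : Finset V} (hXW : X ⊆ W)
    (hX : ∀ x ∈ X, ∀ y ∈ X, ¬ G.Adj x y) :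
    ∃ I : Finset V, X ⊆ I ∧ I ⊆ W ∧ (∀ x ∈ I, ∀ y ∈ I, ¬ G.Adj x y) ∧
      ∀ u ∈ W, u ∉ I → ∃ x ∈ I, G.Adj u x := by
  classical
  obtain ⟨I, hI, hmax⟩ := Finset.exists_max_image
    (W.powerset.filter (fun I => X ⊆ I ∧ ∀ x ∈ I, ∀ y ∈ I, ¬ G.Adj x y)) Finset.card
    ⟨X, Finset.mem_filter.2 ⟨Finset.mem_powerset.2 hXW, Finset.Subset.refl _, hX⟩⟩
  rw [Finset.mem_filter, Finset.mem_powerset] at hI
  obtain ⟨h1, h2, h3⟩ := hI
  refine ⟨I, h2, h1, h3, ?_⟩
  intro u hu huI
  by_contra hno
  push Not at hno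
  have h4 : insert u I ∈ W.powerset.filter (fun I => X ⊆ I ∧ ∀ x ∈ I, ∀ y ∈ I, ¬ G.Adj x y) := by
    rw [Finset.mem_filter, Finset.mem_powerset]
    refine ⟨Finset.insert_subset hu h1, h2.trans (Finset.subset_insert _ _), ?_⟩
    intro x hx y hy
    rw [Finset.mem_insert] at hx hy
    rcases hx with rfl | hx
    · rcases hy with rfl | hy
      · exact G.loopless.irrefl _
      · exact hno y hy
    · rcases hy with rfl | hy
      · exact fun h => hno x hx h.symm
      · exact h3 x hx y hy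
  have := hmax _ h4
  rw [Finset.card_insert_of_notMem huI] at this
  omega

def Two (G : SimpleGraph V) : Prop :=
  ∀ a b c d : V, G.Adj a b → G.Adj c d → a ≠ c → a ≠ d → b ≠ c → b ≠ d →
    G.Adj a c ∨ G.Adj a d ∨ G.Adj b c ∨ G.Adj b d

def Four (G : SimpleGraph V) : Prop :=
  ∀ a b c d : V, G.Adj a b → G.Adj a c → G.Adj a d → G.Adj b c → G.Adj b d → ¬ G.Adj c d

/-- the conclusion of the second phase -/
def Ph2 (G : SimpleGraph V) (c : ℕ) (Q : List ℕ) : Prop :=
  ∀ (W I : Finset V), Hyp G I → I ⊆ W → Prime G W →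
    (∀ u ∈ W, u ∉ I → ∃ x ∈ I, G.Adj u x) → ColOn G W c →
    ∀ (ψ : ℕ → V) (U : Finset V), (∀ x ∈ U, x ∈ W ∧ x ∉ I) → Emb G Q ψ U →
    ∀ (P : Finset ℕ), P.card = c + 1 → ∀ (d : V → ℕ), ProperOn G W P d →
    (∀ x ∈ P, ∀ M : Finset V, GoodMIS G W (c - 1) M → ¬ ∀ w ∈ W, d w = x → w ∈ M) → False

def initOK (Q : List ℕ) (init : List (ℕ × List ℕ)) : Bool :=
  Nat.beq init.length Q.length && (List.range Q.length).all fun i =>
    Nat.beq (init.getD i (0, [])).1 (Q.getD i 0) && decide (Q.getD i 0 < 2 ^ i)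

theorem ph2_of (c : ℕ) (Q : List ℕ) (init : List (ℕ × List ℕ)) (C : Cert)
    (hrun : run (leafP2 c) C init (fun _ => 0) 0 [0, 65536] = true)
    (hok : initOK Q init = true) : Ph2 G c Q := by
  unfold initOK at hok
  rw [Bool.and_eq_true, beq_true, List.all_eq_true] at hok
  obtain ⟨h1, h2⟩ := hok
  intro W I H hIW hP hdom hcol ψ U hU hψ P hPc d hd hbad
  exact phase2 c Q init C hrun h1 (fun i hi => by
    have := h2 i (List.mem_range.2 hi)
    rw [Bool.and_eq_true, beq_true, decide_eq_true_eq] at this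
    exact this) H hIW hP hdom hcol ψ U hU hψ P hPc d hd hbad

theorem ph2_2 : ∀ i, i < Qs2.length → Ph2 G 2 (Qs2.getD i []) := by
  intro i hi
  have : i < 1 := hi
  interval_cases i
  exact ph2_of 2 _ init2_2_0 cert2_2_0 check2_2_0 (by decide +kernel)

theorem ph2_3 : ∀ i, i < Qs3.length → Ph2 G 3 (Qs3.getD i []) := by
  intro i hi
  have : i < 2 := hi
  interval_cases i
  · exact ph2_of 3 _ init2_3_0 cert2_3_0 check2_3_0 (by decide +kernel)
  · exact ph2_of 3 _ init2_3_1 cert2_3_1 check2_3_1 (by decide +kernel)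

theorem ph2_4 : ∀ i, i < Qs4.length → Ph2 G 4 (Qs4.getD i []) := by
  intro i hi
  have : i < 6 := hi
  interval_cases i
  · exact ph2_of 4 _ init2_4_0 cert2_4_0 check2_4_0 (by decide +kernel)
  · exact ph2_of 4 _ init2_4_1 cert2_4_1 check2_4_1 (by decide +kernel)
  · exact ph2_of 4 _ init2_4_2 cert2_4_2 check2_4_2 (by decide +kernel)
  · exact ph2_of 4 _ init2_4_3 cert2_4_3 check2_4_3 (by decide +kernel)
  · exact ph2_of 4 _ init2_4_4 cert2_4_4 check2_4_4 (by decide +kernel)
  · exact ph2_of 4 _ init2_4_5 cert2_4_5 check2_4_5 (by decide +kernel)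

theorem ph1_2 {T : Finset V} (hcol : ¬ ColOn G T 1) :
    ∃ i, i < Qs2.length ∧ ∃ ψ, Emb G (Qs2.getD i []) ψ T := by
  have : ∃ a ∈ T, ∃ b ∈ T, G.Adj a b := by
    by_contra h
    push Not at h
    exact hcol ⟨fun _ => 0, fun v _ => by simp, fun u hu v hv huv => absurd huv (h u hu v hv)⟩
  obtain ⟨a, ha, b, hb, hab⟩ := this
  refine ⟨0, by decide, fun n => if n = 0 then a else b, ?_⟩
  have hQ : Qs2.getD 0 [] = [0, 1] := rfl
  rw [hQ]
  intro n hn
  have hn : n < 2 := hn
  interval_cases n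
  · refine ⟨by simpa using ha, fun m hm => by omega⟩
  · refine ⟨by simpa using hb, fun m hm => ?_⟩
    interval_cases m
    simp [hab.symm, hab.ne]

/-- Every colouring with `c + 1` colours has a class inside a good maximal independent set. -/
theorem classes [DecidableEq V] (two : Two G) (four : Four G) (c : ℕ) (h2 : 2 ≤ c) (h4 : c ≤ 4)
    {W : Finset V} (hP : Prime G W) (hcol : ColOn G W c) {P : Finset ℕ} (hPc : P.card = c + 1)
    {d : V → ℕ} (hd : ProperOn G W P d) :
    ∃ x ∈ P, ∃ M, GoodMIS G W (c - 1) M ∧ ∀ w ∈ W, d w = x → w ∈ M := by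
  by_contra hcon
  have hbad : ∀ x ∈ P, ∀ M : Finset V, GoodMIS G W (c - 1) M → ¬ ∀ w ∈ W, d w = x → w ∈ M :=
    fun x hx M hM h => hcon ⟨x, hx, M, hM, h⟩
  obtain ⟨x, hx⟩ := Finset.card_pos.1 (show 0 < P.card by omega)
  obtain ⟨I, hXI, hIW, hind, hdom⟩ := exists_maximal_ind (G := G) (W := W)
    (X := W.filter (fun w => d w = x)) (Finset.filter_subset _ _) (by
      intro u hu v hv huv
      rw [Finset.mem_filter] at hu hv
      exact hd.2 u hu.1 v hv.1 huv (hu.2.trans hv.2.symm))
  have hnc : ¬ ColOn G (W \ I) (c - 1) := by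
    intro h
    refine hbad x hx I ⟨hIW, hind, ?_⟩ (fun w hw hwx => hXI (Finset.mem_filter.2 ⟨hw, hwx⟩))
    intro U hU
    refine colOn_mono h ?_
    intro y hy
    exact Finset.mem_sdiff.2 ((hU y).1 hy)
  obtain ⟨T, hT, hTne, hTP, hTc⟩ := exists_critical (G := G) (c - 1) _ (W \ I) rfl hnc
  have H0 : Hyp G (∅ : Finset V) := ⟨two, four, fun x hx => absurd hx (Finset.notMem_empty _)⟩
  have HI : Hyp G I := ⟨two, four, hind⟩
  have hU : ∀ x ∈ T, x ∈ W ∧ x ∉ I := fun x hx => Finset.mem_sdiff.1 (hT hx)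
  obtain rfl | rfl | rfl : c = 2 ∨ c = 3 ∨ c = 4 := by omega
  · obtain ⟨i, hi, ψ, hψ⟩ := ph1_2 hTc
    exact ph2_2 i hi W I HI hIW hP hdom hcol ψ T hU hψ P hPc d hd hbad
  · obtain ⟨i, hi, ψ, hψ⟩ := phase1 2 Qs3 cert1_3 check1_3 H0 hTP hTne hTc
    exact ph2_3 i hi W I HI hIW hP hdom hcol ψ T hU hψ P hPc d hd hbad
  · obtain ⟨i, hi, ψ, hψ⟩ := phase1 3 Qs4 cert1_4 check1_4 H0 hTP hTne hTc
    exact ph2_4 i hi W I HI hIW hP hdom hcol ψ T hU hψ P hPc d hd hbad

theorem mix_empty {P : Finset ℕ} : Mix G (∅ : Finset V) P := by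
  intro c d _ _ h
  have : c = d := funext fun v => h v (Finset.notMem_empty _)
  rw [this]

theorem mixing [DecidableEq V] (two : Two G) (four : Four G) : ∀ (c : ℕ), c ≤ 4 →
    ∀ (n : ℕ) (W : Finset V), W.card = n → ∀ (P : Finset ℕ), ColOn G W c → c + 1 ≤ P.card →
    Mix G W P := by
  intro c
  induction c with
  | zero =>
    intro _ n W hW P hcol _
    have : W = ∅ := by
      rw [Finset.eq_empty_iff_forall_notMem]
      intro v hv
      obtain ⟨f, hf, _⟩ := hcol
      have := Finset.mem_range.1 (hf v hv)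
      omega
    rw [this]
    exact mix_empty
  | succ c ihc =>
    intro hc4 n
    induction n using Nat.strong_induction_on with
    | _ n ihn =>
      intro W hW P hcol hPc
      by_cases hWe : W = ∅
      · rw [hWe]; exact mix_empty
      have hWne : W.Nonempty := Finset.nonempty_iff_ne_empty.2 hWe
      by_cases hbig : c + 1 + 2 ≤ P.card
      · refine nice (fun I => I.Nonempty ∧ I ⊆ W ∧ ∀ u ∈ I, ∀ v ∈ I, ¬ G.Adj u v) ?_ (by omega) ?_
        · rintro I ⟨hne, hIW, hind⟩
          refine ⟨hIW, hind, ?_, ?_⟩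
          · obtain ⟨f, hf1, hf2⟩ := colOn_mono hcol (Finset.sdiff_subset (s := W) (t := I))
            refine ⟨f, fun v hv => ?_, hf2⟩
            have := Finset.mem_range.1 (hf1 v hv)
            exact Finset.mem_range.2 (by omega)
          · intro x hx
            refine ihn (W \ I).card ?_ (W \ I) rfl (P.erase x)
              (colOn_mono hcol Finset.sdiff_subset) (by rw [Finset.card_erase_of_mem hx]; omega)
            rw [← hW]
            apply Finset.card_lt_card
            obtain ⟨z, hz⟩ := hne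
            exact Finset.sdiff_ssubset hIW ⟨z, hz⟩
        · intro d hd
          obtain ⟨v, hv⟩ := hWne
          refine ⟨d v, hd.1 v hv, W.filter (fun w => d w = d v),
            ⟨⟨v, Finset.mem_filter.2 ⟨hv, rfl⟩⟩, Finset.filter_subset _ _, ?_⟩,
            fun w hw h => Finset.mem_filter.2 ⟨hw, h⟩⟩
          intro x hx y hy hxy
          rw [Finset.mem_filter] at hx hy
          exact hd.2 x hx.1 y hy.1 hxy (hx.2.trans hy.2.symm)
      · have hPc' : P.card = (c + 1) + 1 := by omega
        by_cases hP : Prime G W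
        · refine nice (fun I => GoodMIS G W c I) ?_ (by omega) ?_
          · intro I hI
            have hco := hI.col (W \ I) (fun x => Finset.mem_sdiff)
            refine ⟨hI.sub, hI.ind, ?_, ?_⟩
            · rw [hPc']; exact hco
            · intro x hx
              exact ihc (by omega) _ (W \ I) rfl (P.erase x) hco
                (by rw [Finset.card_erase_of_mem hx]; omega)
          · intro d hd
            by_cases hc0 : c = 0
            · subst hc0
              obtain ⟨v, hv⟩ := hWne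
              refine ⟨d v, hd.1 v hv, W, ⟨Finset.Subset.refl _, ?_, ?_⟩, fun w hw _ => hw⟩
              · intro x hx y hy hxy
                obtain ⟨f, hf1, hf2⟩ := hcol
                have h1 := Finset.mem_range.1 (hf1 x hx)
                have h2 := Finset.mem_range.1 (hf1 y hy)
                exact hf2 x hx y hy hxy (by omega)
              · intro U hU
                refine ⟨fun _ => 0, fun x hx => absurd ((hU x).1 hx).1 ((hU x).1 hx).2,
                  fun x hx => absurd ((hU x).1 hx).1 ((hU x).1 hx).2⟩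
            · exact classes two four (c + 1) (by omega) hc4 hP hcol hPc' hd
        · obtain ⟨u, hu, v, hv, huv, hna, hN⟩ := not_prime hP
          refine comparable hu hv huv hna hN
            (ihn (W.erase u).card ?_ (W.erase u) rfl P (colOn_mono hcol (Finset.erase_subset _ _))
              (by omega))
          rw [← hW]
          exact Finset.card_erase_lt_of_mem hu

theorem main_mixing (V : Type) [Fintype V] (G : SimpleGraph V) (two : Two G)
    (hfree : G.CliqueFree 4) (hcol : G.Colorable 4) (ℓ : ℕ) (hℓ : 5 ≤ ℓ) (c d : G.Coloring (Fin ℓ)) :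
    ReflTransGen (fun c₁ c₂ : G.Coloring (Fin ℓ) => ∃ v : V, ∀ w : V, w ≠ v → c₁ w = c₂ w) c d := by
  classical
  have four : Four G := by
    intro a b x y h1 h2 h3 h4 h5 h6
    apply hfree {a, b, x, y}
    refine ⟨?_, ?_⟩
    · intro u hu v hv huv
      simp only [Finset.coe_insert, Finset.coe_singleton, Set.mem_insert_iff,
        Set.mem_singleton_iff] at hu hv
      rcases hu with rfl | rfl | rfl | rfl <;> rcases hv with rfl | rfl | rfl | rfl <;>
        first
          | exact absurd rfl huv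
          | assumption
          | (apply SimpleGraph.Adj.symm; assumption)
    · have e1 := h1.ne
      have e2 := h2.ne
      have e3 := h3.ne
      have e4 := h4.ne
      have e5 := h5.ne
      have e6 := h6.ne
      rw [Finset.card_insert_of_notMem (by simp [e1, e2, e3]),
        Finset.card_insert_of_notMem (by simp [e4, e5]),
        Finset.card_insert_of_notMem (by simp [e6]), Finset.card_singleton]
  have hC : ColOn G Finset.univ 4 := by
    obtain ⟨f⟩ := hcol
    refine ⟨fun v => (f v : ℕ), fun v _ => Finset.mem_range.2 (f v).2, ?_⟩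
    intro u _ v _ huv h
    exact f.valid huv (Fin.ext h)
  have hmix := mixing two four 4 le_rfl _ Finset.univ rfl (Finset.range ℓ) hC
    (by rw [Finset.card_range]; exact hℓ)
  have toP : ∀ e : G.Coloring (Fin ℓ), ProperOn G Finset.univ (Finset.range ℓ) (fun v => (e v : ℕ)) := by
    intro e
    refine ⟨fun v _ => Finset.mem_range.2 (e v).2, ?_⟩
    intro u _ v _ huv h
    exact e.valid huv (Fin.ext h)
  have hr := hmix _ _ (toP c) (toP d) (fun v hv => absurd (Finset.mem_univ v) hv)
  have key : ∀ e : V → ℕ, ReflTransGen (Step G Finset.univ (Finset.range ℓ)) (fun v => (c v : ℕ)) e →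
      ∀ f : G.Coloring (Fin ℓ), (∀ v, (f v : ℕ) = e v) →
      ReflTransGen (fun c₁ c₂ : G.Coloring (Fin ℓ) => ∃ v : V, ∀ w : V, w ≠ v → c₁ w = c₂ w) c f := by
    intro e he
    induction he with
    | refl =>
      intro f hf
      have : c = f := by
        apply RelHom.ext
        intro v
        exact Fin.ext (hf v).symm
      rw [this]
    | @tail e e' _ h2 ih =>
      intro f hf
      obtain ⟨h5, h6, z, _, h7⟩ := h2
      have hlt : ∀ v, e v < ℓ := fun v => Finset.mem_range.1 (h5.1 v (Finset.mem_univ v))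
      let g : G.Coloring (Fin ℓ) := Coloring.mk (fun v => ⟨e v, hlt v⟩) (by
        intro u v huv h
        exact h5.2 u (Finset.mem_univ u) v (Finset.mem_univ v) huv (Fin.mk.inj_iff.1 h))
      refine (ih g (fun v => rfl)).tail ⟨z, fun w hw => ?_⟩
      apply Fin.ext
      rw [hf w, ← h7 w hw]
      rfl
  exact key _ hr d (fun v => rfl)

end Pool.Agent.H125R3.Mixing
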