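import Pool.Agent.H125R3.MixDefs

set_option autoImplicit false
set_option linter.unusedSimpArgs false

namespace Pool.Agent.H125R3.Mixing

open SimpleGraph

theorem testBit_bit (p n : ℕ) : Nat.testBit (bit p) n = decide (p = n) := by
  unfold bit
  rw [Nat.one_shiftLeft, Nat.testBit_two_pow]

theorem testBit_lor (a b n : ℕ) :
    Nat.testBit (Nat.lor a b) n = (Nat.testBit a n || Nat.testBit b n) := Nat.testBit_or a b n

theorem testBit_land (a b n : ℕ) :
    Nat.testBit (Nat.land a b) n = (Nat.testBit a n && Nat.testBit b n) := Nat.testBit_and a b n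

theorem beq_true {a b : ℕ} : Nat.beq a b = true ↔ a = b := by
  constructor
  · exact Nat.eq_of_beq_eq_true
  · rintro rfl
    exact Nat.beq_refl _

theorem beq_false {a b : ℕ} : Nat.beq a b = false ↔ a ≠ b := by
  rw [← Bool.not_eq_true, Ne, beq_true]

variable {V : Type} (G : SimpleGraph V) (W I : Finset V)

/-- `x` has profile `c` over the first `k` vertices of `φ`. -/
def Real (φ : ℕ → V) (k : ℕ) (x : V) (c : ℕ) : Prop :=
  ∀ n, n < 17 → (Nat.testBit c n = true ↔ ((n < k ∧ G.Adj x (φ n)) ∨ (n = 16 ∧ x ∈ I)))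

structure Inv (φ : ℕ → V) (k : ℕ) (S : ℕ → ℕ) : Prop where
  mem : ∀ p, p < k → φ p ∈ W
  real : ∀ p, p < k → Real G I φ p (φ p) (S p)
  inj : ∀ p, p < k → ∀ q, q < p → φ q ≠ φ p

def Cover (φ : ℕ → V) (k : ℕ) (L : List ℕ) : Prop :=
  ∀ x ∈ W, (∀ p, p < k → φ p ≠ x) → ∃ d ∈ L, Real G I φ k x d

variable {G W I}

theorem Inv.ne {φ : ℕ → V} {k : ℕ} {S : ℕ → ℕ} (hI : Inv G W I φ k S) {p q : ℕ} (hp : p < k)
    (hq : q < k) (h : p ≠ q) : φ p ≠ φ q := by
  rcases Nat.lt_or_gt_of_ne h with h | h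
  · exact hI.inj q hq p h
  · exact (hI.inj p hp q h).symm

theorem Inv.adj_iff {φ : ℕ → V} {k : ℕ} {S : ℕ → ℕ} (hk : k ≤ 16) (hI : Inv G W I φ k S)
    {p q : ℕ} (hp : p < k) (hq : q < k) (hpq : p ≠ q) :
    adj S p q = true ↔ G.Adj (φ p) (φ q) := by
  unfold adj
  split_ifs with h
  · rw [hI.real q hq p (by omega)]
    constructor
    · rintro (⟨_, h1⟩ | ⟨h1, _⟩)
      · exact h1.symm
      · omega
    · intro h1
      exact Or.inl ⟨h, h1.symm⟩
  · rw [hI.real p hp q (by omega)]
    constructor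
    · rintro (⟨_, h1⟩ | ⟨h1, _⟩)
      · exact h1
      · omega
    · intro h1
      exact Or.inl ⟨by omega, h1⟩

theorem Inv.lab {φ : ℕ → V} {k : ℕ} {S : ℕ → ℕ} (hk : k ≤ 16) (hI : Inv G W I φ k S)
    {p : ℕ} (hp : p < k) : Nat.testBit (S p) 16 = true ↔ φ p ∈ I := by
  rw [hI.real p hp 16 (by omega)]
  constructor
  · rintro (⟨h, _⟩ | ⟨_, h⟩)
    · omega
    · exact h
  · intro h
    exact Or.inr ⟨rfl, h⟩

theorem real_adj {φ : ℕ → V} {k : ℕ} (hk : k ≤ 16) {x : V} {d : ℕ} (hd : Real G I φ k x d)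
    {p : ℕ} (hp : p < k) : Nat.testBit d p = true ↔ G.Adj x (φ p) := by
  rw [hd p (by omega)]
  constructor
  · rintro (⟨_, h1⟩ | ⟨h1, _⟩)
    · exact h1
    · omega
  · intro h1
    exact Or.inl ⟨hp, h1⟩

theorem real_lab {φ : ℕ → V} {k : ℕ} (hk : k ≤ 16) {x : V} {d : ℕ} (hd : Real G I φ k x d) :
    Nat.testBit d 16 = true ↔ x ∈ I := by
  rw [hd 16 (by omega)]
  constructor
  · rintro (⟨h, _⟩ | ⟨_, h⟩)
    · omega
    · exact h
  · intro h
    exact Or.inr ⟨rfl, h⟩

/-- The hypotheses on the graph used by the patterns. -/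
structure Hyp (G : SimpleGraph V) (I : Finset V) : Prop where
  two : ∀ a b c d : V, G.Adj a b → G.Adj c d → a ≠ c → a ≠ d → b ≠ c → b ≠ d →
        G.Adj a c ∨ G.Adj a d ∨ G.Adj b c ∨ G.Adj b d
  four : ∀ a b c d : V, G.Adj a b → G.Adj a c → G.Adj a d → G.Adj b c → G.Adj b d → ¬ G.Adj c d
  ind : ∀ x ∈ I, ∀ y ∈ I, ¬ G.Adj x y

theorem pat_sound (H : Hyp G I) {φ : ℕ → V} {k : ℕ} {S : ℕ → ℕ} (hk : k ≤ 16)
    (hI : Inv G W I φ k S) {n : ℕ} (hn : patOK S k n = true) {x : V}
    (hx : ∀ p, p < k → φ p ≠ x) {d : ℕ}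
    (hd : Real G I φ k x d) : Nat.land d (patX n) ≠ patY n := by
  intro heq
  have hb : ∀ t, (Nat.testBit d t && Nat.testBit (patX n) t) = Nat.testBit (patY n) t := by
    intro t
    rw [← heq]
    exact (Nat.testBit_and d (patX n) t).symm
  unfold patOK at hn
  unfold patX patY at hb
  generalize n % 16 = p at hn hb
  generalize n / 16 % 16 = q at hn hb
  generalize n / 256 % 16 = r at hn hb
  generalize n / 4096 = m at hn hb
  simp only [Bool.and_eq_true, decide_eq_true_eq] at hn
  obtain ⟨hp, hn⟩ := hn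
  have rp := real_adj hk hd hp
  by_cases h2 : m = 2
  · subst h2
    simp only [if_true, OfNat.ofNat_ne_zero, if_false, testBit_lor, testBit_bit] at hn hb
    have h1 := hb p
    have h3 := hb 16
    simp at h1 h3
    have hpI := (hI.lab hk hp).1 hn
    have hxI := (real_lab hk hd).1 h3
    exact H.ind x hxI (φ p) hpI (rp.1 h1)
  · simp only [h2, if_false, testBit_lor] at hn hb
    simp only [Bool.and_eq_true, decide_eq_true_eq, Bool.not_eq_true'] at hn
    obtain ⟨⟨⟨⟨hq, hr⟩, ⟨⟨n1, n2⟩, n3⟩⟩, aqr⟩, hm⟩ := hn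
    have e1 : p ≠ q := beq_false.1 n1
    have e2 : p ≠ r := beq_false.1 n2
    have e3 : q ≠ r := beq_false.1 n3
    have b1 := (hI.adj_iff hk hq hr e3).1 aqr
    have rq := real_adj hk hd hq
    have rr := real_adj hk hd hr
    have hbp := hb p
    have hbq := hb q
    have hbr := hb r
    by_cases h0 : m = 0
    · simp only [h0, if_true, testBit_bit, Bool.and_eq_true, Bool.not_eq_true'] at hm hbp hbq hbr
      simp [e1, e2, e3, e1.symm, e2.symm, e3.symm] at hbp hbq hbr
      rw [hbp] at rp; rw [hbq] at rq; rw [hbr] at rr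
      simp at rp rq rr
      have c1 : ¬ G.Adj (φ p) (φ q) := by
        rw [← hI.adj_iff hk hp hq e1]; simp [hm.1]
      have c2 : ¬ G.Adj (φ p) (φ r) := by
        rw [← hI.adj_iff hk hp hr e2]; simp [hm.2]
      rcases H.two x (φ p) (φ q) (φ r) rp b1 (fun h => hx q hq h.symm) (fun h => hx r hr h.symm)
        (hI.ne hp hq e1) (hI.ne hp hr e2) with h | h | h | h
      · exact rq h
      · exact rr h
      · exact c1 h
      · exact c2 h
    · simp only [h0, if_false, testBit_bit, testBit_lor, Bool.and_eq_true] at hm hbp hbq hbr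
      simp [e1, e2, e3, e1.symm, e2.symm, e3.symm] at hbp hbq hbr
      have c1 := (hI.adj_iff hk hp hq e1).1 hm.1
      have c2 := (hI.adj_iff hk hp hr e2).1 hm.2
      exact H.four x (φ p) (φ q) (φ r) (rp.1 hbp) (rq.1 hbq) (rr.1 hbr) c1 c2 b1

theorem real_ext {φ ψ : ℕ → V} {k : ℕ} (h : ∀ p, p < k → φ p = ψ p) {x : V} {d : ℕ}
    (hd : Real G I φ k x d) : Real G I ψ k x d := by
  intro n hn
  rw [hd n hn]
  constructor
  · rintro (⟨h1, h2⟩ | h1)
    · exact Or.inl ⟨h1, by rw [← h n h1]; exact h2⟩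
    · exact Or.inr h1
  · rintro (⟨h1, h2⟩ | h1)
    · exact Or.inl ⟨h1, by rw [h n h1]; exact h2⟩
    · exact Or.inr h1

theorem inv_ext {φ φ' : ℕ → V} {k : ℕ} {S : ℕ → ℕ} (hI : Inv G W I φ k S)
    (hφ : ∀ p, p < k → φ p = φ' p) (hW : φ' k ∈ W) (hn : ∀ p, p < k → φ p ≠ φ' k) {c : ℕ}
    (hx : Real G I φ k (φ' k) c) : Inv G W I φ' (k + 1) (ext S k c) := by
  refine ⟨?_, ?_, ?_⟩
  · intro p hp
    by_cases h : p = k
    · subst h; exact hW
    · rw [← hφ p (by omega)]; exact hI.mem p (by omega)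
  · intro p hp
    unfold ext
    split_ifs with h
    · subst h
      exact real_ext hφ hx
    · rw [← hφ p (by omega)]
      exact real_ext (fun q hq => hφ q (by omega)) (hI.real p (by omega))
  · intro p hp q hq
    by_cases h : p = k
    · subst h
      rw [← hφ q hq]
      exact hn q hq
    · rw [← hφ p (by omega), ← hφ q (by omega)]
      exact hI.inj p (by omega) q hq

theorem mem_upd_off {k : ℕ} {M : List (ℕ × ℕ)} {L : List ℕ} {d : ℕ} (hd : d ∈ L)
    (hg : good M d = true) : d ∈ upd k M L := by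
  induction L with
  | nil => simp at hd
  | cons e L ih =>
    unfold upd
    rcases List.mem_cons.1 hd with h | h
    · subst h
      simp [hg]
    · have := ih h
      split_ifs <;> simp [this]

theorem mem_upd_on {k : ℕ} {M : List (ℕ × ℕ)} {L : List ℕ} {d : ℕ} (hd : d ∈ L)
    (hg : good M (Nat.lor d (bit k)) = true) :
    Nat.lor d (bit k) ∈ upd k M L := by
  induction L with
  | nil => simp at hd
  | cons e L ih =>
    unfold upd
    rcases List.mem_cons.1 hd with h | h
    · subst h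
      simp only [hg]
      split_ifs <;> simp_all
    · have := ih h
      split_ifs <;> simp only [List.mem_cons, this, or_true]

theorem good_of {M : List (ℕ × ℕ)} {d : ℕ} (h : ∀ m ∈ M, Nat.land d m.1 ≠ m.2) :
    good M d = true := by
  unfold good
  rw [List.all_eq_true]
  intro m hm
  rw [Bool.not_eq_true', beq_false]
  exact h m hm

theorem cover_upd (H : Hyp G I) {φ φ' : ℕ → V} {k : ℕ} (hk : k < 16) {S : ℕ → ℕ} {L : List ℕ}
    (hI : Inv G W I φ k S) (hC : Cover G W I φ k L)
    (hφ : ∀ p, p < k → φ p = φ' p) (hW : φ' k ∈ W) (hn : ∀ p, p < k → φ p ≠ φ' k) {c : ℕ}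
    (hx : Real G I φ k (φ' k) c) {ps : List ℕ}
    (hps : ∀ n ∈ ps, patOK (ext S k c) (k + 1) n = true) :
    Cover G W I φ' (k + 1) (upd k (masks ps) L) := by
  intro y hyW hy
  obtain ⟨d, hd, hr⟩ := hC y hyW (fun p hp => by rw [hφ p hp]; exact hy p (by omega))
  have hI' := inv_ext hI hφ hW hn hx
  have hgood : ∀ d', Real G I φ' (k + 1) y d' → good (masks ps) d' = true := by
    intro d' hd'
    apply good_of
    intro m hm
    obtain ⟨n, hn', rfl⟩ := List.mem_map.1 hm
    exact pat_sound H (by omega) hI' (hps n hn') hy hd'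
  by_cases hyx : G.Adj y (φ' k)
  · have hr' : Real G I φ' (k + 1) y (Nat.lor d (bit k)) := by
      intro n hn'
      rw [testBit_lor, testBit_bit, Bool.or_eq_true, decide_eq_true_eq, hr n hn']
      constructor
      · rintro ((⟨h1, h2⟩ | h1) | h1)
        · exact Or.inl ⟨by omega, by rw [← hφ n h1]; exact h2⟩
        · exact Or.inr h1
        · subst h1
          exact Or.inl ⟨by omega, hyx⟩
      · rintro (⟨h1, h2⟩ | h1)
        · by_cases hnk : k = n
          · exact Or.inr hnk
          · have hlt : n < k := by omega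
            exact Or.inl (Or.inl ⟨hlt, by rw [hφ n hlt]; exact h2⟩)
        · exact Or.inl (Or.inr h1)
    exact ⟨_, mem_upd_on hd (hgood _ hr'), hr'⟩
  · have hr' : Real G I φ' (k + 1) y d := by
      intro n hn'
      rw [hr n hn']
      constructor
      · rintro (⟨h1, h2⟩ | h1)
        · exact Or.inl ⟨by omega, by rw [← hφ n h1]; exact h2⟩
        · exact Or.inr h1
      · rintro (⟨h1, h2⟩ | h1)
        · by_cases hnk : n = k
          · subst hnk
            exact absurd h2 hyx
          · have hlt : n < k := by omega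
            exact Or.inl ⟨hlt, by rw [hφ n hlt]; exact h2⟩
        · exact Or.inr h1
    exact ⟨d, mem_upd_off hd (hgood _ hr'), hr'⟩

theorem check_sound (H : Hyp G I) (Goal : Prop)
    (leafB : Nat → List Nat → (Nat → Nat) → Nat → List Nat → Bool)
    (hleaf : ∀ n ps φ S k L, k ≤ 16 → Inv G W I φ k S → Cover G W I φ k L →
      leafB n ps S k L = true → Goal) :
    ∀ (C : Cert) (φ : ℕ → V) (S : ℕ → ℕ) (k : ℕ) (L : List ℕ), k ≤ 16 →
      Inv G W I φ k S → Cover G W I φ k L → check leafB C S k L = true → Goal := by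
  intro C
  induction C with
  | l n ps =>
    intro φ S k L hk hI hC hch
    exact hleaf n ps φ S k L hk hI hC hch
  | a c ps s r ihs ihr =>
    intro φ S k L hk hI hC hch
    simp only [check, Bool.and_eq_true, decide_eq_true_eq, List.all_eq_true] at hch
    obtain ⟨⟨⟨hk16, hps⟩, hs⟩, hr⟩ := hch
    by_contra hG
    have hno : ∀ x ∈ W, (∀ p, p < k → φ p ≠ x) → ¬ Real G I φ k x c := by
      intro x hxW hxn hx
      apply hG
      have hφ : ∀ p, p < k → φ p = Function.update φ k x p := by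
        intro p hp
        rw [Function.update_of_ne (by omega)]
      have hk' : Function.update φ k x k = x := Function.update_self k x φ
      have hW' : Function.update φ k x k ∈ W := by rw [hk']; exact hxW
      have hn' : ∀ p, p < k → φ p ≠ Function.update φ k x k := by rw [hk']; exact hxn
      have hx' : Real G I φ k (Function.update φ k x k) c := by rw [hk']; exact hx
      exact ihs (Function.update φ k x) (ext S k c) (k + 1) _ (by omega)
        (inv_ext hI hφ hW' hn' hx') (cover_upd H hk16 hI hC hφ hW' hn' hx' hps) hs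
    apply hG
    refine ihr φ S k _ hk hI ?_ hr
    intro x hxW hxn
    obtain ⟨d, hd, hx⟩ := hC x hxW hxn
    refine ⟨d, ?_, hx⟩
    rw [List.mem_filter]
    refine ⟨hd, ?_⟩
    rw [Bool.not_eq_true', beq_false]
    rintro rfl
    exact hno x hxW hxn hx

theorem run_sound (H : Hyp G I) (Goal : Prop)
    (leafB : Nat → List Nat → (Nat → Nat) → Nat → List Nat → Bool)
    (hleaf : ∀ n ps φ S k L, k ≤ 16 → Inv G W I φ k S → Cover G W I φ k L →
      leafB n ps S k L = true → Goal) (C : Cert) :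
    ∀ (t : List (ℕ × List ℕ)) (φ : ℕ → V) (S : ℕ → ℕ) (k : ℕ) (L : List ℕ), k ≤ 16 →
      Inv G W I φ k S → Cover G W I φ k L →
      (∀ i, i < t.length → φ (k + i) ∈ W ∧ (∀ p, p < k + i → φ p ≠ φ (k + i)) ∧
        Real G I φ (k + i) (φ (k + i)) (t.getD i (0, [])).1) →
      run leafB C t S k L = true → Goal := by
  intro t
  induction t with
  | nil =>
    intro φ S k L hk hI hC _ hch
    exact check_sound H Goal leafB hleaf C φ S k L hk hI hC hch
  | cons e t ih =>
    obtain ⟨c, ps⟩ := e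
    intro φ S k L hk hI hC ht hch
    simp only [run, Bool.and_eq_true, decide_eq_true_eq, List.all_eq_true] at hch
    obtain ⟨⟨hk16, hps⟩, hs⟩ := hch
    obtain ⟨h1, h2, h3⟩ := ht 0 (by simp)
    simp only [Nat.add_zero, List.getD_cons_zero] at h1 h2 h3
    refine ih φ (ext S k c) (k + 1) _ (by omega) (inv_ext hI (fun _ _ => rfl) h1 h2 h3)
      (cover_upd H hk16 hI hC (fun _ _ => rfl) h1 h2 h3 hps) ?_ hs
    intro i hi
    have := ht (i + 1) (by simpa using hi)
    rw [show k + 1 + i = k + (i + 1) by ring]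
    simpa using this

end Pool.Agent.H125R3.Mixing
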